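import Pool.Agent.Helper27_TM.Extreme

set_option autoImplicit false

namespace Pool.Agent.Helper27_TM

theorem rho_odd (m : ℕ) : rho (2 * m + 1) = (b m : ℝ) / b (m + 1) := by
  unfold rho
  rw [show 2 * m + 1 - 1 = 2 * m by omega]
  have h1 : |(h (2 * m + 1) : ℝ)| = b m := by
    have := abs_h_odd m
    rw [abs_of_nonneg (b_nonneg m)] at this
    exact_mod_cast this
  have h2 : |(h (2 * m) : ℝ)| = b (m + 1) := by
    have := abs_h_even m
    rw [abs_of_nonneg (b_nonneg _)] at this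
    exact_mod_cast this
  rw [h1, h2]

theorem rho_even (m : ℕ) : rho (2 * (m + 1)) = (b (m + 2) : ℝ) / b m := by
  unfold rho
  rw [show 2 * (m + 1) - 1 = 2 * m + 1 by omega]
  have h1 : |(h (2 * m + 1) : ℝ)| = b m := by
    have := abs_h_odd m
    rw [abs_of_nonneg (b_nonneg m)] at this
    exact_mod_cast this
  have h2 : |(h (2 * (m + 1)) : ℝ)| = b (m + 1 + 1) := by
    have := abs_h_even (m + 1)
    rw [abs_of_nonneg (b_nonneg _)] at this
    exact_mod_cast this
  rw [h1, h2]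

/-- A Möbius function lies above the smaller of its values at the two ends. -/
theorem mobius_ge (α β γ δ x y w : ℝ) (hxy : x ≤ y) (hyw : y ≤ w)
    (hx : 0 < γ * x + δ) (hy : 0 < γ * y + δ) (hw : 0 < γ * w + δ) :
    min ((α * x + β) / (γ * x + δ)) ((α * w + β) / (γ * w + δ)) ≤ (α * y + β) / (γ * y + δ) := by
  set lam := min ((α * x + β) / (γ * x + δ)) ((α * w + β) / (γ * w + δ)) with hl
  have h1 : lam ≤ (α * x + β) / (γ * x + δ) := min_le_left _ _
  have h2 : lam ≤ (α * w + β) / (γ * w + δ) := min_le_right _ _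
  rw [le_div_iff₀ hx] at h1
  rw [le_div_iff₀ hw] at h2
  rw [le_div_iff₀ hy]
  rcases eq_or_lt_of_le (hxy.trans hyw) with h | h
  · have h3 : y = x := le_antisymm (by linarith) hxy
    rw [h3]; exact h1
  · -- convex combination
    have e : ∀ s : ℝ, s * (w - x) = s * (w - x) := fun _ => rfl
    have h4 : 0 ≤ (w - y) * ((α * x + β) - lam * (γ * x + δ)) :=
      mul_nonneg (by linarith) (by linarith)
    have h5 : 0 ≤ (y - x) * ((α * w + β) - lam * (γ * w + δ)) :=
      mul_nonneg (by linarith) (by linarith)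
    have h6 : 0 ≤ (w - x) * ((α * y + β) - lam * (γ * y + δ)) := by
      have : (w - x) * ((α * y + β) - lam * (γ * y + δ)) =
          (w - y) * ((α * x + β) - lam * (γ * x + δ)) +
          (y - x) * ((α * w + β) - lam * (γ * w + δ)) := by ring
      rw [this]; linarith
    have h7 := nonneg_of_mul_nonneg_right h6 (by linarith)
    linarith

/-- position of the largest value of `z j` -/
def nmax (j : ℕ) : ℕ := if Even j then 1 else 2

/-- position of the smallest value of `z j` -/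
def nmin (j : ℕ) : ℕ := if Even j then 6 else 3

theorem z_le_max (j : ℕ) (hj : 1 ≤ j) (n : ℕ) : z j n ≤ z j (nmax j) := by
  unfold nmax
  split_ifs with he
  · exact max_even j hj he n
  · exact max_odd j hj (Nat.not_even_iff_odd.1 he) n

theorem z_ge_min (j : ℕ) (hj : 1 ≤ j) (n : ℕ) (hn : 1 ≤ n) : z j (nmin j) ≤ z j n := by
  obtain ⟨k, rfl⟩ : ∃ k, n = k + 1 := ⟨n - 1, by omega⟩
  unfold nmin
  split_ifs with he
  · exact min_even j hj he k
  · exact min_odd j hj (Nat.not_even_iff_odd.1 he) k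

theorem nmax_pos (j : ℕ) : 1 ≤ nmax j := by unfold nmax; split_ifs <;> norm_num
theorem nmin_pos (j : ℕ) : 1 ≤ nmin j := by unfold nmin; split_ifs <;> norm_num

theorem block_quot (j n l l' : ℕ) (hj : 1 ≤ j) (hl : l ≤ 2 ^ j) (hl' : l' ≤ 2 ^ j) :
    (b (2 ^ j * n + l) : ℝ) / b (2 ^ j * n + l') =
      (a l * z j n + b l) / (a l' * z j n + b l') := by
  have p0 := b_start_pos j n hj
  have e : ∀ s, s ≤ 2 ^ j → (b (2 ^ j * n + s) : ℝ) = (a s * z j n + b s) * b (2 ^ j * n) := by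
    intro s hs
    have := b_block j n s hs
    have h' : (b (2 ^ j * n + s) : ℝ) = a s * b (2 ^ j * n + 1) + b s * b (2 ^ j * n) := by
      exact_mod_cast this
    rw [h']
    unfold z
    field_simp
  rw [e l hl, e l' hl', mul_div_mul_right _ _ p0.ne']

theorem block_den_pos (j n l : ℕ) (hj : 1 ≤ j) (hn : 1 ≤ n) (hl : l ≤ 2 ^ j) :
    0 < (a l : ℝ) * z j n + b l := by
  have p0 := b_start_pos j n hj
  have h1 := b_block j n l hl
  have h2 : (b (2 ^ j * n + l) : ℝ) = (a l * z j n + b l) * b (2 ^ j * n) := by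
    have h' : (b (2 ^ j * n + l) : ℝ) = a l * b (2 ^ j * n + 1) + b l * b (2 ^ j * n) := by
      exact_mod_cast h1
    rw [h']
    unfold z
    field_simp
  have hM : 2 ≤ 2 ^ j := by
    calc 2 = 2 ^ 1 := rfl
      _ ≤ 2 ^ j := Nat.pow_le_pow_right (by norm_num) hj
  have h3 : 2 ^ j * n + l ≠ 1 := by
    have : 2 ^ j * 1 ≤ 2 ^ j * n := Nat.mul_le_mul_left _ hn
    omega
  have h4 : (0 : ℝ) < b (2 ^ j * n + l) := by exact_mod_cast b_pos _ h3
  rw [h2] at h4
  exact pos_of_mul_pos_left h4 p0.le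

/-- values inside a block -/
theorem quot_ge (j n l l' : ℕ) (hj : 1 ≤ j) (hn : 1 ≤ n) (hl : l ≤ 2 ^ j) (hl' : l' ≤ 2 ^ j) :
    min ((b (2 ^ j * nmin j + l) : ℝ) / b (2 ^ j * nmin j + l'))
      ((b (2 ^ j * nmax j + l) : ℝ) / b (2 ^ j * nmax j + l')) ≤
      (b (2 ^ j * n + l) : ℝ) / b (2 ^ j * n + l') := by
  rw [block_quot j _ l l' hj hl hl', block_quot j _ l l' hj hl hl', block_quot j n l l' hj hl hl']
  exact mobius_ge _ _ _ _ _ _ _ (z_ge_min j hj n hn) (z_le_max j hj n)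
    (block_den_pos j _ l' hj (nmin_pos j) hl') (block_den_pos j n l' hj hn hl')
    (block_den_pos j _ l' hj (nmax_pos j) hl')

/-- The value at the end of a block. -/
theorem end_quot (j n : ℕ) (hj : 1 ≤ j) (hn : 3 ≤ 2 ^ j * n) :
    (b (2 ^ j * n + 1) : ℝ) / b (2 ^ j * n - 1) = z j n / |z j n - 1| ∧ z j n ≠ 1 := by
  have p0 := b_start_pos j n hj
  obtain ⟨r, hr⟩ : ∃ r, 2 ^ j * n = r + 2 := ⟨2 ^ j * n - 2, by omega⟩
  have h1 : b (2 ^ j * n + 1) = b (2 ^ j * n) + eps (2 ^ j * n) * b (2 ^ j * n - 1) := by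
    rw [hr]; exact b_rec (r + 1)
  have h1' : (b (2 ^ j * n + 1) : ℝ) = b (2 ^ j * n) + eps (2 ^ j * n) * b (2 ^ j * n - 1) := by
    exact_mod_cast h1
  have hpos : (0 : ℝ) < b (2 ^ j * n - 1) := by exact_mod_cast b_pos _ (by omega)
  have hz : z j n - 1 = eps (2 ^ j * n) * b (2 ^ j * n - 1) / b (2 ^ j * n) := by
    unfold z
    rw [h1']
    field_simp
    ring
  have habs : |z j n - 1| = |(b (2 ^ j * n - 1) : ℝ)| / b (2 ^ j * n) := by
    rw [hz, abs_div, abs_mul, abs_of_pos p0]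
    rcases eps_cases (2 ^ j * n) with he | he <;> rw [he] <;> simp
  constructor
  · rw [habs, abs_of_pos hpos]
    unfold z
    field_simp
  · intro h
    rw [h, sub_self, abs_zero] at habs
    rw [abs_of_pos hpos] at habs
    have : (0 : ℝ) < (b (2 ^ j * n - 1) : ℝ) / b (2 ^ j * n) := div_pos hpos p0
    linarith

theorem end_ge (j n : ℕ) (hj : 1 ≤ j) (hn : 3 ≤ 2 ^ j * n) :
    min ((b (2 ^ j * nmin j + 1) : ℝ) / b (2 ^ j * nmin j - 1))
      ((b (2 ^ j * nmax j + 1) : ℝ) / b (2 ^ j * nmax j - 1)) ≤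
      (b (2 ^ j * n + 1) : ℝ) / b (2 ^ j * n - 1) := by
  have hM : 2 ≤ 2 ^ j := by
    calc 2 = 2 ^ 1 := rfl
      _ ≤ 2 ^ j := Nat.pow_le_pow_right (by norm_num) hj
  have hn1 : 1 ≤ n := by
    rcases Nat.eq_zero_or_pos n with rfl | h
    · simp at hn
    · exact h
  have hmin : 3 ≤ 2 ^ j * nmin j := by
    have : 3 ≤ nmin j := by unfold nmin; split_ifs <;> norm_num
    nlinarith
  have hmax : 3 ≤ 2 ^ j * nmax j := by
    unfold nmax
    split_ifs with he
    · have : 2 ≤ j := by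
        rcases he with ⟨r, rfl⟩; omega
      calc 3 ≤ 2 ^ 2 * 1 := by norm_num
        _ ≤ 2 ^ j * 1 := Nat.mul_le_mul_right _ (Nat.pow_le_pow_right (by norm_num) this)
    · omega
  obtain ⟨q1, q2⟩ := end_quot j n hj hn
  obtain ⟨r1, r2⟩ := end_quot j (nmin j) hj hmin
  obtain ⟨s1, s2⟩ := end_quot j (nmax j) hj hmax
  rw [q1, r1, s1]
  have hlo := z_ge_min j hj n hn1
  have hhi := z_le_max j hj n
  have hz0 := z_nonneg j n
  have hzm := z_nonneg j (nmin j)
  rcases lt_or_gt_of_ne q2 with h | h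
  · refine (min_le_left _ _).trans ?_
    rw [abs_of_neg (by linarith), abs_of_neg (by linarith),
      div_le_div_iff₀ (by linarith) (by linarith)]
    nlinarith
  · refine (min_le_right _ _).trans ?_
    rw [abs_of_pos (by linarith), abs_of_pos (by linarith),
      div_le_div_iff₀ (by linarith) (by linarith)]
    nlinarith

/-- choosing a minimal index among three candidates -/
theorem exists_min (f : ℕ → ℝ) (P : ℕ → Prop) (n1 n2 : ℕ) (h1 : P n1) (h2 : P n2)
    (H : ∀ n, P n → n ≠ 0 → min (f n1) (f n2) ≤ f n) : ∃ n0, P n0 ∧ ∀ n, P n → f n0 ≤ f n := by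
  obtain ⟨m, hm, hmle⟩ : ∃ m, P m ∧ f m ≤ min (f n1) (f n2) := by
    rcases min_choice (f n1) (f n2) with h | h
    · exact ⟨n1, h1, h.ge⟩
    · exact ⟨n2, h2, h.ge⟩
  by_cases h0 : P 0
  · by_cases h3 : f 0 ≤ f m
    · refine ⟨0, h0, fun n hn => ?_⟩
      by_cases hn0 : n = 0
      · rw [hn0]
      · exact h3.trans (hmle.trans (H n hn hn0))
    · refine ⟨m, hm, fun n hn => ?_⟩
      by_cases hn0 : n = 0
      · rw [hn0]; linarith
      · exact hmle.trans (H n hn hn0)
  · refine ⟨m, hm, fun n hn => ?_⟩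
    by_cases hn0 : n = 0
    · rw [hn0] at hn; exact absurd hn h0
    · exact hmle.trans (H n hn hn0)

theorem b_vals : b 2 = 1 ∧ b 3 = 1 ∧ b 4 = 2 ∧ b 5 = 3 ∧ b 6 = 5 ∧ b 7 = 2 ∧ b 8 = 7 := by
  have e1 : eps 1 = 1 := eps_odd 0
  have e2 : eps 2 = -1 := by rw [show 2 = 2 * 1 by norm_num, eps_even 1 (by norm_num), e1]
  have e3 : eps 3 = 1 := eps_odd 1
  have e4 : eps 4 = 1 := by
    rw [show 4 = 2 * 2 by norm_num, eps_even 2 (by norm_num), e2]; norm_num
  have e5 : eps 5 = 1 := eps_odd 2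
  have e6 : eps 6 = -1 := by rw [show 6 = 2 * 3 by norm_num, eps_even 3 (by norm_num), e3]
  have e7 : eps 7 = 1 := eps_odd 3
  have b2 : b 2 = 1 := by rw [b_rec 0]; simp [b, e1]
  have b3 : b 3 = 1 := by rw [b_rec 1, b2]; simp [b, e2]
  have b4 : b 4 = 2 := by rw [b_rec 2, b2, b3, e3]; norm_num
  have b5 : b 5 = 3 := by rw [b_rec 3, b4, b3, e4]; norm_num
  have b6 : b 6 = 5 := by rw [b_rec 4, b5, b4, e5]; norm_num
  have b7 : b 7 = 2 := by rw [b_rec 5, b6, b5, e6]; norm_num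
  have b8 : b 8 = 7 := by rw [b_rec 6, b7, b6, e7]; norm_num
  exact ⟨b2, b3, b4, b5, b6, b7, b8⟩

/-- For every `k ≥ 1` and `i < 2^k` the smallest ratio is attained. -/
theorem attained (k i : ℕ) (hk : 1 ≤ k) (hi : i < 2 ^ k) :
    ∃ n0, 4 ≤ 2 ^ k * n0 + i ∧
      ∀ n, 4 ≤ 2 ^ k * n + i → rho (2 ^ k * n0 + i + 1) ≤ rho (2 ^ k * n + i + 1) := by
  obtain ⟨j, rfl⟩ : ∃ j, k = j + 1 := ⟨k - 1, by omega⟩
  rcases Nat.eq_zero_or_pos j with rfl | hj
  · -- `k = 1`
    obtain ⟨b2, b3, b4, b5, b6, b7, b8⟩ := b_vals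
    have hi' : i = 0 ∨ i = 1 := by
      norm_num at hi; omega
    rcases hi' with rfl | rfl
    · refine ⟨7, by norm_num, fun n hn => ?_⟩
      rw [show 2 ^ (0 + 1) * 7 + 0 + 1 = 2 * 7 + 1 by norm_num,
        show 2 ^ (0 + 1) * n + 0 + 1 = 2 * n + 1 by ring, rho_odd, rho_odd, b7, b8]
      have h1 := step_up n (by norm_num at hn; omega)
      have h2 : (0 : ℝ) < b (n + 1) := by exact_mod_cast b_pos _ (by norm_num at hn; omega)
      have h1' : (2 : ℝ) * b (n + 1) ≤ 7 * b n := by exact_mod_cast h1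
      push_cast
      rw [div_le_div_iff₀ (by norm_num) h2]
      linarith
    · refine ⟨5, by norm_num, fun n hn => ?_⟩
      rw [show 2 ^ (0 + 1) * 5 + 1 + 1 = 2 * (5 + 1) by norm_num,
        show 2 ^ (0 + 1) * n + 1 + 1 = 2 * (n + 1) by ring, rho_even, rho_even]
      have hn2 : 2 ≤ n := by norm_num at hn; omega
      have h1 := step_two n (by omega)
      have h2 : (0 : ℝ) < b n := by exact_mod_cast b_pos _ (by omega)
      have h1' : (2 : ℝ) * b n ≤ 3 * b (n + 2) := by exact_mod_cast h1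
      rw [show 5 + 2 = 7 by norm_num, b7, b5]
      push_cast
      rw [div_le_div_iff₀ (by norm_num) h2]
      linarith
  · -- `k = j + 1 ≥ 2`
    have hM : 2 ≤ 2 ^ j := by
      calc 2 = 2 ^ 1 := rfl
        _ ≤ 2 ^ j := Nat.pow_le_pow_right (by norm_num) hj
    have hpow : 2 ^ (j + 1) = 2 * 2 ^ j := by ring
    rcases Nat.even_or_odd' i with ⟨l, rfl | rfl⟩
    · -- `i = 2 l`
      have hl : l + 1 ≤ 2 ^ j := by rw [hpow] at hi; omega
      have hval : ∀ n, rho (2 ^ (j + 1) * n + 2 * l + 1) =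
          (b (2 ^ j * n + l) : ℝ) / b (2 ^ j * n + (l + 1)) := by
        intro n
        rw [show 2 ^ (j + 1) * n + 2 * l + 1 = 2 * (2 ^ j * n + l) + 1 by ring, rho_odd]
        rfl
      apply exists_min (fun n => rho (2 ^ (j + 1) * n + 2 * l + 1))
        (fun n => 4 ≤ 2 ^ (j + 1) * n + 2 * l) (nmin j) (nmax j)
      · have := nmin_pos j
        have : 2 ^ (j + 1) * 1 ≤ 2 ^ (j + 1) * nmin j := Nat.mul_le_mul_left _ this
        omega
      · have := nmax_pos j
        have : 2 ^ (j + 1) * 1 ≤ 2 ^ (j + 1) * nmax j := Nat.mul_le_mul_left _ this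
        omega
      · intro n _ hn0
        simp only [hval]
        exact quot_ge j n l (l + 1) hj (by omega) (by omega) hl
    · -- `i = 2 l + 1`
      have hval : ∀ n, rho (2 ^ (j + 1) * n + (2 * l + 1) + 1) =
          (b (2 ^ j * n + l + 2) : ℝ) / b (2 ^ j * n + l) := by
        intro n
        rw [show 2 ^ (j + 1) * n + (2 * l + 1) + 1 = 2 * (2 ^ j * n + l + 1) by ring, rho_even]
      have hl : l + 1 ≤ 2 ^ j := by rw [hpow] at hi; omega
      rcases Nat.lt_or_ge (l + 1) (2 ^ j) with hlt | hge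
      · apply exists_min (fun n => rho (2 ^ (j + 1) * n + (2 * l + 1) + 1))
          (fun n => 4 ≤ 2 ^ (j + 1) * n + (2 * l + 1)) (nmin j) (nmax j)
        · have := nmin_pos j
          have : 2 ^ (j + 1) * 1 ≤ 2 ^ (j + 1) * nmin j := Nat.mul_le_mul_left _ this
          omega
        · have := nmax_pos j
          have : 2 ^ (j + 1) * 1 ≤ 2 ^ (j + 1) * nmax j := Nat.mul_le_mul_left _ this
          omega
        · intro n _ hn0
          simp only [hval]
          exact quot_ge j n (l + 2) l hj (by omega) (by omega) (by omega)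
      · -- end of the block
        have hle : l + 1 = 2 ^ j := le_antisymm hl hge
        have hval2 : ∀ n, rho (2 ^ (j + 1) * n + (2 * l + 1) + 1) =
            (b (2 ^ j * (n + 1) + 1) : ℝ) / b (2 ^ j * (n + 1) - 1) := by
          intro n
          rw [hval, mul_add, mul_one, ← hle]
          congr 3
        have hmx : 4 ≤ 2 ^ (j + 1) * (nmax j - 1) + (2 * l + 1) := by
          unfold nmax
          split_ifs with he
          · have h2 : 2 ≤ j := by
              rcases he with ⟨r, rfl⟩; omega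
            have : 2 ^ 2 ≤ 2 ^ j := Nat.pow_le_pow_right (by norm_num) h2
            omega
          · rw [show 2 - 1 = 1 from rfl]; omega
        have hmn : 4 ≤ 2 ^ (j + 1) * (nmin j - 1) + (2 * l + 1) := by
          have : 2 ≤ nmin j - 1 := by unfold nmin; split_ifs <;> norm_num
          have : 2 ^ (j + 1) * 2 ≤ 2 ^ (j + 1) * (nmin j - 1) := Nat.mul_le_mul_left _ this
          omega
        apply exists_min (fun n => rho (2 ^ (j + 1) * n + (2 * l + 1) + 1))
          (fun n => 4 ≤ 2 ^ (j + 1) * n + (2 * l + 1)) (nmin j - 1) (nmax j - 1) hmn hmx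
        intro n hn hn0
        simp only [hval2]
        rw [Nat.sub_add_cancel (nmin_pos j), Nat.sub_add_cancel (nmax_pos j)]
        apply end_ge j (n + 1) hj
        have : 2 ^ j * 2 ≤ 2 ^ j * (n + 1) := Nat.mul_le_mul_left _ (by omega)
        omega

/-- The value of the minimal ratio at the first place after a block. -/
theorem first_min (j : ℕ) (hj : 1 ≤ j) (n : ℕ) (hn : 4 ≤ 2 ^ (j + 1) * n) :
    rho (2 ^ (j + 1) * nmax j + 1) ≤ rho (2 ^ (j + 1) * n + 1) := by
  have hn1 : 1 ≤ n := by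
    rcases Nat.eq_zero_or_pos n with rfl | h
    · simp at hn
    · exact h
  have hval : ∀ n, 1 ≤ n → rho (2 ^ (j + 1) * n + 1) = 1 / z j n := by
    intro n _
    rw [show 2 ^ (j + 1) * n + 1 = 2 * (2 ^ j * n) + 1 by ring, rho_odd]
    unfold z
    rw [one_div_div]
  rw [hval n hn1, hval _ (nmax_pos j)]
  have hz : 0 < z j n := by
    have := block_den_pos j n 1 hj hn1 Nat.one_le_two_pow
    simpa [a, b] using this
  exact one_div_le_one_div_of_le hz (z_le_max j hj n)

end Pool.Agent.Helper27_TM
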