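import Pool.Agent.Helper27_TM.Defs

/-!
The Thue-Morse twisted Fibonacci sequence: definitions and the block structure.
-/

set_option autoImplicit false

namespace Pool.Agent.Helper27_TM

theorem s2_two_mul (n : ℕ) : s2 (2 * n) = s2 n := by
  unfold s2
  rcases Nat.eq_zero_or_pos n with rfl | hn
  · simp
  · rw [Nat.digits_def' (by norm_num) (by omega)]
    simp

theorem s2_two_mul_add_one (n : ℕ) : s2 (2 * n + 1) = s2 n + 1 := by
  unfold s2
  rw [Nat.digits_def' (by norm_num) (by omega)]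
  have h1 : (2 * n + 1) % 2 = 1 := by omega
  have h2 : (2 * n + 1) / 2 = n := by omega
  rw [h1, h2, List.sum_cons, add_comm]

theorem t_two_mul (n : ℕ) : t (2 * n) = t n := by
  unfold t; rw [s2_two_mul]

theorem t_two_mul_add_one (n : ℕ) : t (2 * n + 1) = - t n := by
  unfold t; rw [s2_two_mul_add_one, pow_succ]; ring

theorem t_sq (n : ℕ) : t n * t n = 1 := by
  unfold t; rw [← mul_pow]; simp

theorem t_zero : t 0 = 1 := by simp [t, s2]

theorem t_cases (n : ℕ) : t n = 1 ∨ t n = -1 := by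
  unfold t
  exact neg_one_pow_eq_or ℤ _

theorem t_block (j n l : ℕ) (hl : l < 2 ^ j) : t (2 ^ j * n + l) = t n * t l := by
  induction j generalizing l with
  | zero =>
    have : l = 0 := by simpa using hl
    subst this
    simp [t_zero]
  | succ j ih =>
    rcases Nat.even_or_odd' l with ⟨c, rfl | rfl⟩
    · have h1 : 2 ^ (j + 1) * n + 2 * c = 2 * (2 ^ j * n + c) := by ring
      rw [h1, t_two_mul, t_two_mul, ih c (by rw [pow_succ] at hl; omega)]
    · have h1 : 2 ^ (j + 1) * n + (2 * c + 1) = 2 * (2 ^ j * n + c) + 1 := by ring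
      rw [h1, t_two_mul_add_one, t_two_mul_add_one, ih c (by rw [pow_succ] at hl; omega)]
      ring

/-- `ε_l = - t_l t_{l-1}`. -/
def eps (l : ℕ) : ℤ := -(t l * t (l - 1))

theorem eps_odd (l : ℕ) : eps (2 * l + 1) = 1 := by
  unfold eps
  rw [show 2 * l + 1 - 1 = 2 * l by omega, t_two_mul, t_two_mul_add_one]
  have := t_sq l
  linarith

theorem eps_even (l : ℕ) (hl : 0 < l) : eps (2 * l) = - eps l := by
  unfold eps
  obtain ⟨k, rfl⟩ : ∃ k, l = k + 1 := ⟨l - 1, by omega⟩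
  rw [show 2 * (k + 1) - 1 = 2 * k + 1 by omega, t_two_mul, t_two_mul_add_one]
  simp

theorem eps_cases (l : ℕ) : eps l = 1 ∨ eps l = -1 := by
  unfold eps
  rcases t_cases l with h1 | h1 <;> rcases t_cases (l - 1) with h2 | h2 <;> rw [h1, h2] <;> simp

theorem eps_block (j n l : ℕ) (h0 : 0 < l) (hl : l < 2 ^ j) :
    eps (2 ^ j * n + l) = eps l := by
  unfold eps
  have h1 : 2 ^ j * n + l - 1 = 2 ^ j * n + (l - 1) := by omega
  rw [h1, t_block j n l hl, t_block j n (l - 1) (by omega)]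
  have := t_sq n
  linear_combination (-(t l * t (l - 1))) * this

theorem eps_pow_mul (j n : ℕ) (hn : 0 < n) : eps (2 ^ j * n) = (-1) ^ j * eps n := by
  induction j with
  | zero => simp
  | succ j ih =>
    rw [show 2 ^ (j + 1) * n = 2 * (2 ^ j * n) by ring, eps_even _ (by positivity), ih, pow_succ]
    ring

theorem t_pow_sub_one (j : ℕ) : t (2 ^ j - 1) = (-1) ^ j := by
  induction j with
  | zero => simp [t_zero]
  | succ j ih =>
    have : 2 ^ (j + 1) - 1 = 2 * (2 ^ j - 1) + 1 := by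
      have := Nat.one_le_two_pow (n := j)
      rw [pow_succ]; omega
    rw [this, t_two_mul_add_one, ih, pow_succ]
    ring

/-- Basic solution with initial values `0, 1`. -/
def a : ℕ → ℤ
  | 0 => 0
  | 1 => 1
  | l + 2 => a (l + 1) + eps (l + 1) * a l

/-- Basic solution with initial values `1, 0`. -/
def b : ℕ → ℤ
  | 0 => 1
  | 1 => 0
  | l + 2 => b (l + 1) + eps (l + 1) * b l

theorem h_odd (m : ℕ) : h (2 * m + 3) = - t (m + 1) * h (2 * m) := by
  have h1 : h (2 * m + 3) = t (2 * m + 3) * h (2 * m + 2) + h (2 * m + 1) := rfl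
  have h2 : h (2 * m + 2) = t (2 * m + 2) * h (2 * m + 1) + h (2 * m) := rfl
  rw [h1, h2, show 2 * m + 3 = 2 * (m + 1) + 1 by ring, t_two_mul_add_one,
    show 2 * m + 2 = 2 * (m + 1) by ring, t_two_mul]
  have := t_sq (m + 1)
  linear_combination (-(h (2 * m + 1))) * this

theorem h_even_b : ∀ m, h (2 * m) = - b (m + 1)
  | 0 => by simp [h, b]
  | 1 => by
    have h2 : h (2 * 1) = t 2 * h 1 + h 0 := rfl
    have h3 : b (1 + 1) = b 1 + eps 1 * b 0 := rfl
    rw [h2, h3, show (2 : ℕ) = 2 * 1 from rfl, t_two_mul, show (1 : ℕ) = 2 * 0 + 1 from rfl,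
      t_two_mul_add_one, t_zero, eps_odd]
    simp [h, b]
  | m + 2 => by
    have i1 := h_even_b m
    have i2 := h_even_b (m + 1)
    have h1 : h (2 * (m + 2)) = t (2 * (m + 2)) * h (2 * m + 3) + h (2 * (m + 1)) := rfl
    have h2 : b (m + 2 + 1) = b (m + 2) + eps (m + 2) * b (m + 1) := rfl
    rw [h1, h2, t_two_mul, h_odd, i1, i2]
    unfold eps
    rw [show m + 2 - 1 = m + 1 by omega]
    ring

theorem abs_h_even (m : ℕ) : |h (2 * m)| = |b (m + 1)| := by
  rw [h_even_b, abs_neg]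

theorem abs_h_odd (m : ℕ) : |h (2 * m + 1)| = |b m| := by
  cases m with
  | zero => simp [h, b]
  | succ m =>
    rw [show 2 * (m + 1) + 1 = 2 * m + 3 by ring, h_odd, abs_mul, abs_h_even, abs_neg]
    rcases t_cases (m + 1) with h1 | h1 <;> rw [h1] <;> simp

/-- four steps of the recursion -/
theorem four_step (G : ℕ → ℤ) (hG : ∀ l, G (l + 2) = G (l + 1) + eps (l + 1) * G l) (i : ℕ) :
    G (4 * i + 2) = G (4 * i + 1) + G (4 * i) ∧ G (4 * i + 3) = G (4 * i) ∧
    G (4 * i + 4) = 2 * G (4 * i) + G (4 * i + 1) ∧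
    G (4 * i + 5) = 2 * G (4 * i) + G (4 * i + 1) + eps (4 * i + 4) * G (4 * i) := by
  have e1 : eps (4 * i + 1) = 1 := by
    rw [show 4 * i + 1 = 2 * (2 * i) + 1 by ring, eps_odd]
  have e2 : eps (4 * i + 2) = -1 := by
    rw [show 4 * i + 2 = 2 * (2 * i + 1) by ring, eps_even _ (by omega), eps_odd]
  have e3 : eps (4 * i + 3) = 1 := by
    rw [show 4 * i + 3 = 2 * (2 * i + 1) + 1 by ring, eps_odd]
  have h2 := hG (4 * i)
  have h3 := hG (4 * i + 1)
  have h4 := hG (4 * i + 2)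
  have h5 := hG (4 * i + 3)
  rw [e1] at h2
  rw [show 4 * i + 1 + 1 = 4 * i + 2 by ring, e2] at h3
  rw [show 4 * i + 2 + 1 = 4 * i + 3 by ring, e3] at h4
  rw [show 4 * i + 3 + 1 = 4 * i + 4 by ring] at h5
  rw [show 4 * i + 1 + 2 = 4 * i + 3 by ring] at h3
  rw [show 4 * i + 2 + 2 = 4 * i + 4 by ring] at h4
  rw [show 4 * i + 3 + 2 = 4 * i + 5 by ring] at h5
  refine ⟨by linarith, by linarith, by linarith, ?_⟩
  have h3' : G (4 * i + 3) = G (4 * i) := by linarith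
  rw [h5, h4, h3', h2]
  ring

theorem nonneg_four (G : ℕ → ℤ) (hG : ∀ l, G (l + 2) = G (l + 1) + eps (l + 1) * G l)
    (h0 : 0 ≤ G 0) (h1 : 0 ≤ G 1) (i : ℕ) : 0 ≤ G (4 * i) ∧ 0 ≤ G (4 * i + 1) := by
  induction i with
  | zero => exact ⟨h0, h1⟩
  | succ i ih =>
    obtain ⟨-, -, f4, f5⟩ := four_step G hG i
    rw [show 4 * (i + 1) = 4 * i + 4 by ring, show 4 * i + 4 + 1 = 4 * i + 5 by ring, f4, f5]
    refine ⟨by linarith [ih.1, ih.2], ?_⟩
    rcases eps_cases (4 * i + 4) with he | he <;> rw [he] <;> linarith [ih.1, ih.2]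

theorem nonneg_all (G : ℕ → ℤ) (hG : ∀ l, G (l + 2) = G (l + 1) + eps (l + 1) * G l)
    (h0 : 0 ≤ G 0) (h1 : 0 ≤ G 1) (l : ℕ) : 0 ≤ G l := by
  obtain ⟨i, hi⟩ : ∃ i, l = 4 * i ∨ l = 4 * i + 1 ∨ l = 4 * i + 2 ∨ l = 4 * i + 3 :=
    ⟨l / 4, by omega⟩
  obtain ⟨p0, p1⟩ := nonneg_four G hG h0 h1 i
  obtain ⟨f2, f3, -, -⟩ := four_step G hG i
  rcases hi with rfl | rfl | rfl | rfl
  · exact p0
  · exact p1
  · rw [f2]; linarith
  · rw [f3]; exact p0

theorem a_rec (l : ℕ) : a (l + 2) = a (l + 1) + eps (l + 1) * a l := rfl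
theorem b_rec (l : ℕ) : b (l + 2) = b (l + 1) + eps (l + 1) * b l := rfl

theorem a_nonneg (l : ℕ) : 0 ≤ a l := nonneg_all a a_rec (by simp [a]) (by simp [a]) l
theorem b_nonneg (l : ℕ) : 0 ≤ b l := nonneg_all b b_rec (by simp [b]) (by simp [b]) l

theorem b_pos_four (i : ℕ) : 0 < b (4 * i) ∧ 0 < b (4 * i + 4 + 1) := by
  induction i with
  | zero =>
    obtain ⟨-, -, f4, f5⟩ := four_step b b_rec 0
    refine ⟨by simp [b], ?_⟩
    have h0 : b (4 * 0) = 1 := rfl
    have h1 : b (4 * 0 + 1) = 0 := rfl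
    rw [show 4 * 0 + 4 + 1 = 4 * 0 + 5 by ring, f5, h0, h1]
    rcases eps_cases (4 * 0 + 4) with he | he <;> rw [he] <;> norm_num
  | succ i ih =>
    obtain ⟨-, -, f4, f5⟩ := four_step b b_rec i
    have p4 : 0 < b (4 * (i + 1)) := by
      rw [show 4 * (i + 1) = 4 * i + 4 by ring, f4]
      linarith [ih.1, b_nonneg (4 * i + 1)]
    refine ⟨p4, ?_⟩
    obtain ⟨-, -, f4', f5'⟩ := four_step b b_rec (i + 1)
    rw [show 4 * (i + 1) + 4 + 1 = 4 * (i + 1) + 5 by ring, f5']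
    rcases eps_cases (4 * (i + 1) + 4) with he | he <;> rw [he] <;>
      linarith [b_nonneg (4 * (i + 1) + 1)]

/-- `b_l > 0` for `l ≠ 1`. -/
theorem b_pos (l : ℕ) (hl : l ≠ 1) : 0 < b l := by
  obtain ⟨i, hi⟩ : ∃ i, l = 4 * i ∨ l = 4 * i + 1 ∨ l = 4 * i + 2 ∨ l = 4 * i + 3 :=
    ⟨l / 4, by omega⟩
  obtain ⟨f2, f3, -, -⟩ := four_step b b_rec i
  have p0 := (b_pos_four i).1
  rcases hi with rfl | rfl | rfl | rfl
  · exact p0
  · obtain ⟨k, rfl⟩ : ∃ k, i = k + 1 := ⟨i - 1, by omega⟩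
    exact (b_pos_four k).2
  · rw [f2]; linarith [b_nonneg (4 * i + 1)]
  · rw [f3]; exact p0

theorem wronsk (l : ℕ) : a (l + 1) * b l - a l * b (l + 1) = t l := by
  induction l with
  | zero => simp [a, b, t_zero]
  | succ l ih =>
    rw [a_rec, b_rec]
    have he : eps (l + 1) = -(t (l + 1) * t l) := rfl
    rw [he]
    linear_combination (t (l + 1) * t l) * ih + t (l + 1) * t_sq l

/-- block decomposition -/
theorem b_block (j n l : ℕ) (hl : l ≤ 2 ^ j) :
    b (2 ^ j * n + l) = a l * b (2 ^ j * n + 1) + b l * b (2 ^ j * n) := by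
  induction l using Nat.strong_induction_on with
  | _ l ih =>
    match l, ih, hl with
    | 0, _, _ => simp [a, b]
    | 1, _, _ => simp [a, b]
    | l + 2, ih, hl =>
      have i0 := ih l (by omega) (by omega)
      have i1 := ih (l + 1) (by omega) (by omega)
      have e := eps_block j n (l + 1) (by omega) (by omega)
      have r : b (2 ^ j * n + (l + 2)) = b (2 ^ j * n + (l + 1)) +
          eps (2 ^ j * n + (l + 1)) * b (2 ^ j * n + l) := rfl
      rw [r, e, i0, i1, a_rec, b_rec]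
      ring

end Pool.Agent.Helper27_TM
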