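import Pool.Agent.Helper27_TM.Basic

set_option autoImplicit false

namespace Pool.Agent.Helper27_TM

/-- The ratios of neighbouring terms at multiples of four: `7 z ∈ [5, 21/2]`. -/
theorem four_ratio (i : ℕ) :
    b (4 * i + 5) ≤ b (4 * i + 4) + b (4 * i + 3) ∧
    b (4 * i + 4) - b (4 * i + 3) ≤ b (4 * i + 5) ∧
    2 * b (4 * i + 3) ≤ b (4 * i + 4) ∧ 2 * b (4 * i + 4) ≤ 7 * b (4 * i + 3) := by
  have key : ∀ i, 2 * b (4 * i + 3) ≤ b (4 * i + 4) ∧ 2 * b (4 * i + 4) ≤ 7 * b (4 * i + 3) := by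
    intro i
    induction i with
    | zero =>
      obtain ⟨f2, f3, f4, f5⟩ := four_step b b_rec 0
      have h0 : b (4 * 0) = 1 := rfl
      have h1 : b (4 * 0 + 1) = 0 := rfl
      rw [f4, f3, h0, h1]
      norm_num
    | succ i ih =>
      obtain ⟨f2, f3, f4, f5⟩ := four_step b b_rec i
      obtain ⟨g2, g3, g4, g5⟩ := four_step b b_rec (i + 1)
      have e4 : b (4 * (i + 1)) = b (4 * i + 4) := rfl
      have e5 : b (4 * (i + 1) + 1) = b (4 * i + 5) := rfl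
      rw [g4, g3, e4, e5]
      have p3 : 0 ≤ b (4 * i + 3) := b_nonneg _
      have h6 : b (4 * i + 5) = b (4 * i + 4) + eps (4 * i + 4) * b (4 * i + 3) := rfl
      rcases eps_cases (4 * i + 4) with he | he <;> rw [he] at h6 <;> constructor <;>
        linarith [ih.1, ih.2]
  have h6 : b (4 * i + 5) = b (4 * i + 4) + eps (4 * i + 4) * b (4 * i + 3) := rfl
  have p3 : 0 ≤ b (4 * i + 3) := b_nonneg _
  refine ⟨?_, ?_, (key i).1, (key i).2⟩
  · rcases eps_cases (4 * i + 4) with he | he <;> rw [he] at h6 <;> linarith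
  · rcases eps_cases (4 * i + 4) with he | he <;> rw [he] at h6 <;> linarith

/-- `2 b_{l+1} ≤ 7 b_l` for `l ≥ 2`. -/
theorem step_up (l : ℕ) (hl : 2 ≤ l) : 2 * b (l + 1) ≤ 7 * b l := by
  obtain ⟨i, hi⟩ : ∃ i, l = 4 * i + 2 ∨ l = 4 * i + 3 ∨ l = 4 * i + 4 ∨ l = 4 * i + 5 :=
    ⟨(l - 2) / 4, by omega⟩
  obtain ⟨f2, f3, f4, f5⟩ := four_step b b_rec i
  obtain ⟨r1, r2, r3, r4⟩ := four_ratio i
  have p0 : 0 ≤ b (4 * i) := b_nonneg _
  have p1 : 0 ≤ b (4 * i + 1) := b_nonneg _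
  rcases hi with rfl | rfl | rfl | rfl
  · rw [show 4 * i + 2 + 1 = 4 * i + 3 by ring, f3, f2]; linarith
  · exact r4
  · rw [show 4 * i + 4 + 1 = 4 * i + 5 by ring]; linarith
  · obtain ⟨g2, -, -, -⟩ := four_step b b_rec (i + 1)
    have e4 : b (4 * (i + 1)) = b (4 * i + 4) := rfl
    have e5 : b (4 * (i + 1) + 1) = b (4 * i + 5) := rfl
    rw [show 4 * i + 5 + 1 = 4 * (i + 1) + 2 by ring, g2, e4, e5]
    linarith

/-- `2 b_l ≤ 3 b_{l+2}` -/
theorem step_two (l : ℕ) (hl : l ≠ 1) : 2 * b l ≤ 3 * b (l + 2) := by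
  rcases Nat.eq_zero_or_pos l with rfl | hpos
  · have h2 : b (0 + 2) = b 1 + eps 1 * b 0 := rfl
    have e1 : eps 1 = 1 := eps_odd 0
    rw [h2, e1]; simp [b]
  obtain ⟨i, hi⟩ : ∃ i, l = 4 * i + 2 ∨ l = 4 * i + 3 ∨ l = 4 * i + 4 ∨ l = 4 * i + 5 :=
    ⟨(l - 2) / 4, by omega⟩
  obtain ⟨f2, f3, f4, f5⟩ := four_step b b_rec i
  obtain ⟨r1, r2, r3, r4⟩ := four_ratio i
  obtain ⟨g2, g3, g4, g5⟩ := four_step b b_rec (i + 1)
  have e4 : b (4 * (i + 1)) = b (4 * i + 4) := rfl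
  have e5 : b (4 * (i + 1) + 1) = b (4 * i + 5) := rfl
  rw [e4, e5] at g2 g4
  rw [e4] at g3
  have p0 : 0 ≤ b (4 * i) := b_nonneg _
  have p1 : 0 ≤ b (4 * i + 1) := b_nonneg _
  rcases hi with rfl | rfl | rfl | rfl
  · rw [show 4 * i + 2 + 2 = 4 * i + 4 by ring, f4, f2]; linarith
  · rw [show 4 * i + 3 + 2 = 4 * i + 5 by ring]; linarith
  · rw [show 4 * i + 4 + 2 = 4 * (i + 1) + 2 by ring, g2]
    linarith [b_nonneg (4 * i + 5), b_nonneg (4 * i + 4)]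
  · rw [show 4 * i + 5 + 2 = 4 * (i + 1) + 3 by ring, g3]
    linarith

/-- The bound of the first question, for integers. -/
theorem bound_int (n : ℕ) (hn : 4 ≤ n) : 2 * |h (n - 1)| ≤ 7 * |h n| := by
  rcases Nat.even_or_odd' n with ⟨m, rfl | rfl⟩
  · obtain ⟨k, rfl⟩ : ∃ k, m = k + 2 := ⟨m - 2, by omega⟩
    rw [show 2 * (k + 2) - 1 = 2 * (k + 1) + 1 by omega, abs_h_even, abs_h_odd,
      abs_of_nonneg (b_nonneg _), abs_of_nonneg (b_nonneg _)]
    by_cases hk : k + 1 = 1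
    · have : k = 0 := by omega
      subst this
      have h1 : b (0 + 1) = 0 := rfl
      rw [h1]
      linarith [b_nonneg (0 + 2 + 1)]
    · have := step_two (k + 1) hk
      rw [show k + 2 + 1 = k + 1 + 2 by ring]
      linarith [b_nonneg (k + 1 + 2)]
  · rw [show 2 * m + 1 - 1 = 2 * m by omega, abs_h_even, abs_h_odd,
      abs_of_nonneg (b_nonneg _), abs_of_nonneg (b_nonneg _)]
    exact step_up m (by omega)

end Pool.Agent.Helper27_TM
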