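import Mathlib

/-!
The Thue-Morse twisted Fibonacci sequence: definitions.
-/

set_option autoImplicit false

namespace Pool.Agent.Helper27_TM

/-- The number of ones in the binary expansion of `n`. -/
def s2 (n : ℕ) : ℕ := (Nat.digits 2 n).sum

/-- The Prouhet-Thue-Morse sequence `t_n = (-1)^{s_2(n)}`. -/
def t (n : ℕ) : ℤ := (-1) ^ s2 n

/-- `h_0 = 0`, `h_1 = 1`, `h_n = t_n h_{n-1} + h_{n-2}` for `n ≥ 2`. -/
def h : ℕ → ℤ
  | 0 => 0
  | 1 => 1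
  | n + 2 => t (n + 2) * h (n + 1) + h n

/-- `ρ_n = |h_n| / |h_{n-1}|` (used for `n ≥ 5`, where `h_{n-1} ≠ 0`). -/
noncomputable def rho (n : ℕ) : ℝ := |(h n : ℝ)| / |(h (n - 1) : ℝ)|

/-- The best constant in `|h_{2^k n + i + 1}| ≥ C |h_{2^k n + i}|` (all `n` with `2^k n + i ≥ 4`):
the infimum of the ratios. -/
noncomputable def C (k i : ℕ) : ℝ := sInf {x : ℝ | ∃ n : ℕ, 4 ≤ 2 ^ k * n + i ∧ x = rho (2 ^ k * n + i + 1)}

/-- The lower limit `liminf_{n → ∞} ρ_{2^k n + i + 1}`. -/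
noncomputable def Climinf (k i : ℕ) : ℝ :=
  Filter.liminf (fun n : ℕ => rho (2 ^ k * n + i + 1)) Filter.atTop

end Pool.Agent.Helper27_TM
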