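import Pool.Agent.Helper27_TM.Bound

set_option autoImplicit false

namespace Pool.Agent.Helper27_TM

/-- ratio at the start of the `n`-th block of length `2^j` -/
noncomputable def z (j n : ℕ) : ℝ := (b (2 ^ j * n + 1) : ℝ) / (b (2 ^ j * n) : ℝ)

noncomputable def D (j : ℕ) (x : ℝ) : ℝ := a (2 ^ j) * x + b (2 ^ j)

noncomputable def F (j : ℕ) (x : ℝ) : ℝ := (a (2 ^ j - 1) * x + b (2 ^ j - 1)) / D j x

theorem b_start_pos (j n : ℕ) (hj : 1 ≤ j) : (0 : ℝ) < b (2 ^ j * n) := by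
  have h : 2 ^ j * n ≠ 1 := by
    intro h
    have h1 : 2 ^ j = 1 := Nat.eq_one_of_mul_eq_one_right h
    have : 2 ^ j ≠ 1 := by
      have := Nat.pow_lt_pow_right (a := 2) (by norm_num) (show 0 < j by omega)
      omega
    exact this h1
  exact_mod_cast b_pos _ h

theorem D_pos (j : ℕ) (hj : 1 ≤ j) (x : ℝ) (hx : 0 ≤ x) : 0 < D j x := by
  have h1 : (0 : ℝ) < b (2 ^ j) := by
    have := b_start_pos j 1 hj
    simpa using this
  have h2 : (0 : ℝ) ≤ a (2 ^ j) := by exact_mod_cast a_nonneg _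
  unfold D
  positivity

theorem z_nonneg (j n : ℕ) : 0 ≤ z j n := by
  have h1 : (0 : ℝ) ≤ b (2 ^ j * n + 1) := by exact_mod_cast b_nonneg _
  have h2 : (0 : ℝ) ≤ b (2 ^ j * n) := by exact_mod_cast b_nonneg _
  exact div_nonneg h1 h2

theorem z_zero (j : ℕ) : z j 0 = 0 := by simp [z, b]

theorem z_succ (j n : ℕ) (hj : 1 ≤ j) :
    z j (n + 1) = 1 + eps (2 ^ j * (n + 1)) * F j (z j n) := by
  have hM : 2 ≤ 2 ^ j := by
    calc 2 = 2 ^ 1 := rfl
      _ ≤ 2 ^ j := Nat.pow_le_pow_right (by norm_num) hj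
  have p0 := b_start_pos j n hj
  have p1 := b_start_pos j (n + 1) hj
  have e1 : b (2 ^ j * (n + 1)) = a (2 ^ j) * b (2 ^ j * n + 1) + b (2 ^ j) * b (2 ^ j * n) := by
    rw [show 2 ^ j * (n + 1) = 2 ^ j * n + 2 ^ j by ring, b_block j n _ le_rfl]
  have e2 : b (2 ^ j * n + (2 ^ j - 1)) =
      a (2 ^ j - 1) * b (2 ^ j * n + 1) + b (2 ^ j - 1) * b (2 ^ j * n) :=
    b_block j n _ (by omega)
  have e3 : b (2 ^ j * (n + 1) + 1) =
      b (2 ^ j * (n + 1)) + eps (2 ^ j * (n + 1)) * b (2 ^ j * n + (2 ^ j - 1)) := by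
    have h1 : 2 ^ j * (n + 1) = (2 ^ j * n + (2 ^ j - 1)) + 1 := by
      rw [mul_add]; omega
    rw [h1, b_rec]
  have e1' : (b (2 ^ j * (n + 1)) : ℝ) =
      a (2 ^ j) * b (2 ^ j * n + 1) + b (2 ^ j) * b (2 ^ j * n) := by exact_mod_cast e1
  have e2' : (b (2 ^ j * n + (2 ^ j - 1)) : ℝ) =
      a (2 ^ j - 1) * b (2 ^ j * n + 1) + b (2 ^ j - 1) * b (2 ^ j * n) := by exact_mod_cast e2
  have e3' : (b (2 ^ j * (n + 1) + 1) : ℝ) =
      b (2 ^ j * (n + 1)) + eps (2 ^ j * (n + 1)) * b (2 ^ j * n + (2 ^ j - 1)) := by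
    exact_mod_cast e3
  have hF : F j (z j n) = (b (2 ^ j * n + (2 ^ j - 1)) : ℝ) / b (2 ^ j * (n + 1)) := by
    unfold F D z
    rw [e1', e2']
    rw [e1'] at p1
    have hq : (a (2 ^ j) : ℝ) * (↑(b (2 ^ j * n + 1)) / ↑(b (2 ^ j * n))) + ↑(b (2 ^ j)) =
        (↑(a (2 ^ j)) * ↑(b (2 ^ j * n + 1)) + ↑(b (2 ^ j)) * ↑(b (2 ^ j * n))) /
          ↑(b (2 ^ j * n)) := by
      field_simp
    rw [hq]
    field_simp
  rw [hF]
  unfold z
  rw [e3']
  field_simp

theorem F_sub (j : ℕ) (hj : 1 ≤ j) (x y : ℝ) (hx : 0 ≤ x) (hy : 0 ≤ y) :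
    F j x - F j y = (-1) ^ j * (y - x) / (D j x * D j y) := by
  have hDx := D_pos j hj x hx
  have hDy := D_pos j hj y hy
  have hM : 1 ≤ 2 ^ j := Nat.one_le_two_pow
  have w := wronsk (2 ^ j - 1)
  rw [Nat.sub_add_cancel hM, t_pow_sub_one] at w
  have w' : (a (2 ^ j) : ℝ) * b (2 ^ j - 1) - a (2 ^ j - 1) * b (2 ^ j) = (-1) ^ j := by
    exact_mod_cast w
  unfold F
  rw [div_sub_div _ _ hDx.ne' hDy.ne']
  congr 1
  rw [← w']
  unfold D
  ring

theorem F_nonneg (j : ℕ) (hj : 1 ≤ j) (x : ℝ) (hx : 0 ≤ x) : 0 ≤ F j x := by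
  have hD := D_pos j hj x hx
  have h1 : (0 : ℝ) ≤ a (2 ^ j - 1) := by exact_mod_cast a_nonneg _
  have h2 : (0 : ℝ) ≤ b (2 ^ j - 1) := by exact_mod_cast b_nonneg _
  unfold F
  positivity

theorem F_anti (j : ℕ) (hj : 1 ≤ j) (he : Even j) (x y : ℝ) (hx : 0 ≤ x) (hxy : x ≤ y) :
    F j y ≤ F j x := by
  have h := F_sub j hj x y hx (hx.trans hxy)
  rw [he.neg_one_pow, one_mul] at h
  have : 0 ≤ (y - x) / (D j x * D j y) :=
    div_nonneg (by linarith) (mul_pos (D_pos j hj x hx) (D_pos j hj y (hx.trans hxy))).le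
  linarith

theorem F_mono (j : ℕ) (hj : 1 ≤ j) (ho : Odd j) (x y : ℝ) (hx : 0 ≤ x) (hxy : x ≤ y) :
    F j x ≤ F j y := by
  have h := F_sub j hj x y hx (hx.trans hxy)
  rw [ho.neg_one_pow] at h
  have : 0 ≤ (y - x) / (D j x * D j y) :=
    div_nonneg (by linarith) (mul_pos (D_pos j hj x hx) (D_pos j hj y (hx.trans hxy))).le
  have h2 : -1 * (y - x) / (D j x * D j y) = - ((y - x) / (D j x * D j y)) := by ring
  linarith

theorem z_level (j n : ℕ) : z j (2 * n) = z (j + 1) n := by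
  unfold z
  rw [show 2 ^ j * (2 * n) = 2 ^ (j + 1) * n by ring]

theorem eps_one : eps 1 = 1 := eps_odd 0

/-- value at sign `+` -/
theorem z_of_pos (j n : ℕ) (hj : 1 ≤ j) (he : eps (2 ^ j * (n + 1)) = 1) :
    z j (n + 1) = 1 + F j (z j n) := by
  rw [z_succ j n hj, he]; simp

theorem z_of_neg (j n : ℕ) (hj : 1 ≤ j) (he : eps (2 ^ j * (n + 1)) = -1) :
    z j (n + 1) = 1 - F j (z j n) := by
  rw [z_succ j n hj, he]; simp; ring

theorem one_le_z (j n : ℕ) (hj : 1 ≤ j) (he : eps (2 ^ j * (n + 1)) = 1) : 1 ≤ z j (n + 1) := by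
  rw [z_of_pos j n hj he]
  linarith [F_nonneg j hj _ (z_nonneg j n)]

theorem z_le_one (j n : ℕ) (hj : 1 ≤ j) (he : eps (2 ^ j * (n + 1)) = -1) : z j (n + 1) ≤ 1 := by
  rw [z_of_neg j n hj he]
  linarith [F_nonneg j hj _ (z_nonneg j n)]

/-- even level: the largest value is at the first block -/
theorem max_even (j : ℕ) (hj : 1 ≤ j) (he : Even j) (n : ℕ) : z j n ≤ z j 1 := by
  have e1 : eps (2 ^ j * (0 + 1)) = 1 := by
    rw [zero_add, eps_pow_mul j 1 (by norm_num), he.neg_one_pow, eps_one]; norm_num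
  have h1 : z j 1 = 1 + F j (z j 0) := z_of_pos j 0 hj e1
  cases n with
  | zero =>
    rw [z_zero]
    exact z_nonneg _ _
  | succ n =>
    rcases eps_cases (2 ^ j * (n + 1)) with h | h
    · rw [z_of_pos j n hj h, h1, z_zero]
      have := F_anti j hj he 0 (z j n) le_rfl (z_nonneg _ _)
      linarith
    · have h2 := z_le_one j n hj h
      have h3 := one_le_z j 0 hj e1
      exact h2.trans h3

/-- odd level: the largest value is at the second block -/
theorem max_odd (j : ℕ) (hj : 1 ≤ j) (ho : Odd j) (n : ℕ) : z j n ≤ z j 2 := by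
  have hz2 : z j 2 = z (j + 1) 1 := z_level j 1
  cases n with
  | zero =>
    rw [z_zero]
    exact z_nonneg _ _
  | succ n =>
    rcases eps_cases (2 ^ j * (n + 1)) with h | h
    · -- then `n + 1` is even
      rw [eps_pow_mul j (n + 1) (by omega), ho.neg_one_pow] at h
      rcases Nat.even_or_odd' (n + 1) with ⟨c, hc | hc⟩
      · rw [hc, z_level, hz2]
        exact max_even (j + 1) (by omega) (by
          rcases ho with ⟨r, rfl⟩; exact ⟨r + 1, by ring⟩) c
      · rw [hc, eps_odd] at h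
        norm_num at h
    · have h2 := z_le_one j n hj h
      have e1 : eps (2 ^ j * (1 + 1)) = 1 := by
        rw [eps_pow_mul j (1 + 1) (by norm_num), ho.neg_one_pow,
          show 1 + 1 = 2 * 1 by norm_num, eps_even 1 (by norm_num), eps_one]; norm_num
      exact h2.trans (one_le_z j 1 hj e1)

/-- odd level: the smallest value (over `n ≥ 1`) is at the third block -/
theorem min_odd (j : ℕ) (hj : 1 ≤ j) (ho : Odd j) (n : ℕ) : z j 3 ≤ z j (n + 1) := by
  have e3 : eps (2 ^ j * (2 + 1)) = -1 := by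
    rw [eps_pow_mul j (2 + 1) (by norm_num), ho.neg_one_pow,
      show 2 + 1 = 2 * 1 + 1 by norm_num, eps_odd]; norm_num
  rcases eps_cases (2 ^ j * (n + 1)) with h | h
  · exact (z_le_one j 2 hj e3).trans (one_le_z j n hj h)
  · rw [z_of_neg j n hj h, z_of_neg j 2 hj e3]
    have := F_mono j hj ho (z j n) (z j 2) (z_nonneg _ _) (max_odd j hj ho n)
    linarith

/-- even level: the smallest value (over `n ≥ 1`) is at the sixth block -/
theorem min_even (j : ℕ) (hj : 1 ≤ j) (he : Even j) (n : ℕ) : z j 6 ≤ z j (n + 1) := by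
  have e3 : eps 3 = 1 := eps_odd 1
  have e5 : eps 5 = 1 := eps_odd 2
  have e2 : eps 2 = -1 := by
    rw [show 2 = 2 * 1 by norm_num, eps_even 1 (by norm_num), eps_one]
  have e4 : eps 4 = 1 := by
    rw [show 4 = 2 * 2 by norm_num, eps_even 2 (by norm_num), e2]; norm_num
  have e6 : eps 6 = -1 := by
    rw [show 6 = 2 * 3 by norm_num, eps_even 3 (by norm_num), e3]
  have hs : ∀ m, 0 < m → eps (2 ^ j * m) = eps m := by
    intro m hm
    rw [eps_pow_mul j m hm, he.neg_one_pow, one_mul]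
  have e6' : eps (2 ^ j * (5 + 1)) = -1 := by rw [hs _ (by norm_num)]; exact e6
  have e5' : eps (2 ^ j * (4 + 1)) = 1 := by rw [hs _ (by norm_num)]; exact e5
  have e4' : eps (2 ^ j * (3 + 1)) = 1 := by rw [hs _ (by norm_num)]; exact e4
  rcases eps_cases (2 ^ j * (n + 1)) with h | h
  · exact (z_le_one j 5 hj e6').trans (one_le_z j n hj h)
  · rw [z_of_neg j n hj h, z_of_neg j 5 hj e6']
    rw [hs _ (by omega)] at h
    -- `n + 1` is even
    rcases Nat.even_or_odd' (n + 1) with ⟨c, hc | hc⟩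
    swap
    · rw [hc, eps_odd] at h; norm_num at h
    obtain ⟨c', rfl⟩ : ∃ c', c = c' + 1 := ⟨c - 1, by omega⟩
    rw [hc, eps_even _ (by omega)] at h
    have hn : n = 2 * c' + 1 := by omega
    have hodd : eps (2 ^ j * (2 * c' + 1)) = 1 := by rw [hs _ (by omega), eps_odd]
    have hzn : z j n = 1 + F j (z j (2 * c')) := by
      rw [hn]; exact z_of_pos j (2 * c') hj hodd
    have hz5 : z j 5 = 1 + F j (z j 4) := z_of_pos j 4 hj e5'
    -- it suffices to compare the block before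
    have key : z j (2 * c') ≤ z j 4 := by
      rcases Nat.even_or_odd' c' with ⟨d, hd | hd⟩
      · rw [hd, z_level, z_level, show (4 : ℕ) = 2 * (2 * 1) by norm_num, z_level, z_level]
        exact max_even (j + 2) (by omega) (by
          rcases he with ⟨r, rfl⟩; exact ⟨r + 1, by ring⟩) d
      · -- `eps (2 c') = - eps c' = -1`
        have hc' : eps (2 ^ j * (2 * c')) = -1 := by
          rw [hs _ (by omega), eps_even _ (by omega), hd, eps_odd]
        obtain ⟨m, hm⟩ : ∃ m, 2 * c' = m + 1 := ⟨2 * c' - 1, by omega⟩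
        rw [hm] at hc' ⊢
        exact (z_le_one j m hj hc').trans (one_le_z j 3 hj e4')
    have h1 : z j 5 ≤ z j n := by
      rw [hzn, hz5]
      linarith [F_anti j hj he _ _ (z_nonneg j (2 * c')) key]
    linarith [F_anti j hj he _ _ (z_nonneg j 5) h1]

end Pool.Agent.Helper27_TM
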