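import Pool.Agent.Helper27_TM.Values

set_option autoImplicit false

namespace Pool.Agent.Helper27_TM

/-- `X i = b_{4i+1} / b_{4i} - 1` -/
noncomputable def X (i : ℕ) : ℝ := (b (4 * i + 1) : ℝ) / b (4 * i) - 1

theorem b4_pos (i : ℕ) : (0 : ℝ) < b (4 * i) := by exact_mod_cast (b_pos_four i).1

theorem X_succ (i : ℕ) : X (i + 1) = eps (4 * i + 4) / (3 + X i) ∧ 0 < 3 + X i := by
  obtain ⟨f2, f3, f4, f5⟩ := four_step b b_rec i
  have p0 := b4_pos i
  have p1 : (0 : ℝ) ≤ b (4 * i + 1) := by exact_mod_cast b_nonneg _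
  have f4' : (b (4 * i + 4) : ℝ) = 2 * b (4 * i) + b (4 * i + 1) := by exact_mod_cast f4
  have f5' : (b (4 * i + 5) : ℝ) = 2 * b (4 * i) + b (4 * i + 1) + eps (4 * i + 4) * b (4 * i) := by
    exact_mod_cast f5
  have h1 : 3 + X i = (2 * b (4 * i) + b (4 * i + 1)) / b (4 * i) := by
    unfold X; field_simp; ring
  have hpos : 0 < 3 + X i := by rw [h1]; positivity
  refine ⟨?_, hpos⟩
  rw [h1]
  unfold X
  rw [show 4 * (i + 1) + 1 = 4 * i + 5 by ring, show 4 * (i + 1) = 4 * i + 4 by ring, f4', f5']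
  have hne : (2 * b (4 * i) + b (4 * i + 1) : ℝ) ≠ 0 := by positivity
  field_simp
  ring

theorem X_abs (i : ℕ) : 2 / 7 ≤ |X (i + 1)| ∧ |X (i + 1)| ≤ 1 / 2 := by
  obtain ⟨r1, r2, r3, r4⟩ := four_ratio i
  obtain ⟨h1, h2⟩ := X_succ i
  obtain ⟨f2, f3, f4, f5⟩ := four_step b b_rec i
  rw [f3, f4] at r3 r4
  have p0 := b4_pos i
  have r3' : (2 : ℝ) * b (4 * i) ≤ 2 * b (4 * i) + b (4 * i + 1) := by exact_mod_cast r3
  have r4' : (2 : ℝ) * (2 * b (4 * i) + b (4 * i + 1)) ≤ 7 * b (4 * i) := by exact_mod_cast r4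
  have h3 : 3 + X i = (2 * b (4 * i) + b (4 * i + 1)) / b (4 * i) := by
    unfold X; field_simp; ring
  have h4 : 2 ≤ 3 + X i := by
    rw [h3, le_div_iff₀ p0]; exact r3'
  have h5 : 3 + X i ≤ 7 / 2 := by
    rw [h3, div_le_iff₀ p0]; linarith
  rw [h1, abs_div, abs_of_pos h2]
  have he : |((eps (4 * i + 4) : ℤ) : ℝ)| = 1 := by
    rcases eps_cases (4 * i + 4) with he | he <;> rw [he] <;> simp
  rw [he]
  constructor
  · rw [div_le_div_iff₀ (by norm_num) h2]; linarith
  · rw [div_le_div_iff₀ h2 (by norm_num)]; linarith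

/-- No rational number is a cluster point of `X`. -/
theorem X_far (q : ℕ) : ∀ p : ℤ, 0 < q → ∃ δ : ℝ, 0 < δ ∧ ∃ N : ℕ, ∀ i, N ≤ i →
    δ ≤ |X i - p / q| := by
  induction q using Nat.strong_induction_on with
  | _ q ih =>
    intro p hq
    have hq' : (0 : ℝ) < q := by exact_mod_cast hq
    rcases eq_or_ne p 0 with rfl | hp
    · refine ⟨2 / 7, by norm_num, 1, fun i hi => ?_⟩
      obtain ⟨k, rfl⟩ : ∃ k, i = k + 1 := ⟨i - 1, by omega⟩
      simpa using (X_abs k).1
    by_cases hbig : (q : ℝ) < 2 * |(p : ℝ)|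
    · refine ⟨|(p : ℝ)| / q - 1 / 2, ?_, 1, fun i hi => ?_⟩
      · have : 1 / 2 < |(p : ℝ)| / q := by
          rw [div_lt_div_iff₀ (by norm_num) hq']; linarith
        linarith
      · obtain ⟨k, rfl⟩ : ∃ k, i = k + 1 := ⟨i - 1, by omega⟩
        have h1 := (X_abs k).2
        have h2 : |(p : ℝ) / q| = |(p : ℝ)| / q := by rw [abs_div, abs_of_pos hq']
        have h3 := abs_sub_abs_le_abs_sub ((p : ℝ) / q) (X (k + 1))
        rw [abs_sub_comm, h2] at h3
        linarith
    · push Not at hbig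
      have hpn : 0 < p.natAbs := Int.natAbs_pos.2 hp
      have habs : |(p : ℝ)| = p.natAbs := by
        rw [Nat.cast_natAbs]; push_cast; rfl
      have hlt : p.natAbs < q := by
        rw [habs] at hbig
        have : 2 * p.natAbs ≤ q := by exact_mod_cast hbig
        omega
      have hP : (0 : ℝ) < (p.natAbs : ℝ) := by exact_mod_cast hpn
      -- both signs
      obtain ⟨δ1, hδ1, N1, h1⟩ := ih p.natAbs hlt (p.sign * (q - 3 * p)) hpn
      obtain ⟨δ2, hδ2, N2, h2⟩ := ih p.natAbs hlt (p.sign * (-q - 3 * p)) hpn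
      have hsign : ((p.sign : ℤ) : ℝ) * p.natAbs = p := by
        calc ((p.sign : ℤ) : ℝ) * (p.natAbs : ℝ) = ((p.sign * (p.natAbs : ℤ) : ℤ) : ℝ) := by
              rw [Int.cast_mul, Int.cast_natCast]
          _ = p := by rw [Int.sign_mul_natAbs]
      have hss : ((p.sign : ℤ) : ℝ) * (p.sign : ℤ) = 1 := by
        rcases lt_or_gt_of_ne hp with h | h
        · rw [Int.sign_eq_neg_one_of_neg h]; norm_num
        · rw [Int.sign_eq_one_of_pos h]; norm_num
      have hp' : (p : ℝ) ≠ 0 := by exact_mod_cast hp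
      refine ⟨min δ1 δ2 * |(p : ℝ)| / (4 * q), by positivity, max N1 N2 + 1, fun i hi => ?_⟩
      obtain ⟨k, rfl⟩ : ∃ k, i = k + 1 := ⟨i - 1, by omega⟩
      have hm1 := le_max_left N1 N2
      have hm2 := le_max_right N1 N2
      have hk1 : N1 ≤ k := by omega
      have hk2 : N2 ≤ k := by omega
      have g1 := h1 k hk1
      have g2 := h2 k hk2
      obtain ⟨e1, e2⟩ := X_succ k
      have e3 : 3 + X k ≤ 4 := by
        have h3 : (2 : ℝ) / 7 ≤ |X (k + 1)| := (X_abs k).1
        rw [e1, abs_div, abs_of_pos e2] at h3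
        have he : |((eps (4 * k + 4) : ℤ) : ℝ)| = 1 := by
          rcases eps_cases (4 * k + 4) with he | he <;> rw [he] <;> simp
        rw [he, div_le_div_iff₀ (by norm_num) e2] at h3
        linarith
      have key : ∀ e : ℤ, (e = 1 ∨ e = -1) → ∀ δ : ℝ, 0 < δ →
          δ ≤ |X k - ((p.sign * (e * q - 3 * p) : ℤ) : ℝ) / p.natAbs| →
          δ * |(p : ℝ)| / (4 * q) ≤ |(e : ℝ) / (3 + X k) - p / q| := by
        intro e he δ hδ hle
        have hy : ((p.sign * (e * q - 3 * p) : ℤ) : ℝ) / p.natAbs = (e * q - 3 * p) / p := by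
          push_cast
          rw [div_eq_div_iff hP.ne' hp', ← hsign]
          have : ((p.sign : ℤ) : ℝ) * (e * q - 3 * (p.sign * p.natAbs)) * (p.sign * p.natAbs) =
              (((p.sign : ℤ) : ℝ) * (p.sign : ℤ)) * ((e * q - 3 * (p.sign * p.natAbs)) * p.natAbs) := by
            ring
          rw [this, hss, one_mul]
        rw [hy] at hle
        have heq : (e : ℝ) / (3 + X k) - p / q =
            -((X k - (e * q - 3 * p) / p) * p / ((3 + X k) * q)) := by
          field_simp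
          ring
        rw [heq, abs_neg, abs_div, abs_mul, abs_mul, abs_of_pos e2, abs_of_pos hq']
        have hpp : 0 < |(p : ℝ)| := abs_pos.2 hp'
        calc δ * |(p : ℝ)| / (4 * q) ≤ δ * |(p : ℝ)| / ((3 + X k) * q) := by
              apply div_le_div_of_nonneg_left (by positivity) (by positivity)
              exact mul_le_mul_of_nonneg_right e3 hq'.le
          _ ≤ |X k - (e * q - 3 * p) / p| * |(p : ℝ)| / ((3 + X k) * q) := by
              gcongr
      have hpp : 0 < |(p : ℝ)| := abs_pos.2 hp'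
      rw [e1]
      rcases eps_cases (4 * k + 4) with he | he
      · have h := key 1 (Or.inl rfl) δ1 hδ1 (by simpa using g1)
        rw [he]
        push_cast at h ⊢
        refine le_trans ?_ h
        gcongr
        exact min_le_left _ _
      · have h := key (-1) (Or.inr rfl) δ2 hδ2 (by simpa using g2)
        rw [he]
        push_cast at h ⊢
        refine le_trans ?_ h
        gcongr
        exact min_le_right _ _

theorem X_far_rat (y : ℚ) : ∃ δ : ℝ, 0 < δ ∧ ∃ N : ℕ, ∀ i, N ≤ i → δ ≤ |X i - y| := by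
  obtain ⟨δ, hδ, N, h⟩ := X_far y.den y.num y.den_pos
  refine ⟨δ, hδ, N, fun i hi => ?_⟩
  have := h i hi
  have hy : ((y.num : ℤ) : ℝ) / (y.den : ℝ) = y := by
    exact_mod_cast Rat.num_div_den y
  rwa [hy] at this

/-- Möbius images of `X` stay away from rationals. -/
theorem mob_far (α β γ δ' : ℚ) (hdet : α * δ' - β * γ ≠ 0) (M : ℝ)
    (hM : ∀ i, 1 ≤ i → 0 < (γ : ℝ) * X i + δ' ∧ (γ : ℝ) * X i + δ' ≤ M) (y : ℚ) :
    ∃ δ : ℝ, 0 < δ ∧ ∃ N : ℕ, ∀ i, N ≤ i →
      δ ≤ |((α : ℝ) * X i + β) / ((γ : ℝ) * X i + δ') - y| := by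
  have hMpos : 0 < M := lt_of_lt_of_le (hM 1 le_rfl).1 (hM 1 le_rfl).2
  by_cases h0 : α - y * γ = 0
  · have h1 : β - y * δ' ≠ 0 := by
      intro h1
      apply hdet
      have ha : α = y * γ := by linarith
      have hb : β = y * δ' := by linarith
      rw [ha, hb]; ring
    have h1' : ((β : ℝ) - y * δ') ≠ 0 := by exact_mod_cast h1
    have h0' : (α : ℝ) - y * γ = 0 := by exact_mod_cast h0
    refine ⟨|(β : ℝ) - y * δ'| / M, by positivity, 1, fun i hi => ?_⟩
    obtain ⟨p1, p2⟩ := hM i hi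
    have : ((α : ℝ) * X i + β) / ((γ : ℝ) * X i + δ') - y =
        ((β : ℝ) - y * δ') / ((γ : ℝ) * X i + δ') := by
      rw [div_sub' p1.ne']
      congr 1
      linear_combination X i * h0'
    rw [this, abs_div, abs_of_pos p1]
    exact div_le_div_of_nonneg_left (abs_nonneg _) p1 p2
  · obtain ⟨δ, hδ, N, h⟩ := X_far_rat (-(β - y * δ') / (α - y * γ))
    have h0' : (α : ℝ) - y * γ ≠ 0 := by exact_mod_cast h0
    refine ⟨|(α : ℝ) - y * γ| * δ / M, by positivity, max N 1, fun i hi => ?_⟩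
    obtain ⟨p1, p2⟩ := hM i (le_trans (le_max_right _ _) hi)
    have h3 := h i (le_trans (le_max_left _ _) hi)
    have : ((α : ℝ) * X i + β) / ((γ : ℝ) * X i + δ') - y =
        ((α : ℝ) - y * γ) * (X i - ((-(β - y * δ') / (α - y * γ) : ℚ) : ℝ)) /
          ((γ : ℝ) * X i + δ') := by
      have hr : ((-(β - y * δ') / (α - y * γ) : ℚ) : ℝ) * ((α : ℝ) - y * γ) =
          -((β : ℝ) - y * δ') := by
        push_cast
        field_simp
      rw [div_sub' p1.ne']
      congr 1
      linear_combination hr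
    rw [this, abs_div, abs_mul, abs_of_pos p1]
    calc |(α : ℝ) - y * γ| * δ / M ≤ |(α : ℝ) - y * γ| * δ / ((γ : ℝ) * X i + δ') :=
          div_le_div_of_nonneg_left (by positivity) p1 p2
      _ ≤ _ := by
          apply div_le_div_of_nonneg_right _ p1.le
          exact mul_le_mul_of_nonneg_left h3 (abs_nonneg _)

end Pool.Agent.Helper27_TM
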