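import Pool.Agent.Helper27_TM.Irr

set_option autoImplicit false

namespace Pool.Agent.Helper27_TM

theorem X_range (i : ℕ) (hi : 1 ≤ i) : -(1 / 2) ≤ X i ∧ X i ≤ 1 / 2 := by
  obtain ⟨k, rfl⟩ : ∃ k, i = k + 1 := ⟨i - 1, by omega⟩
  exact abs_le.1 (X_abs k).2

/-- the eight possible forms of a ratio -/
theorem rho_forms (i : ℕ) (hi : 1 ≤ i) :
    rho (2 * (4 * i) + 1) = 1 / (X i + 1) ∧
    rho (2 * (4 * i + 1) + 1) = (X i + 1) / (X i + 2) ∧
    rho (2 * (4 * i + 2) + 1) = X i + 2 ∧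
    rho (2 * (4 * i + 3) + 1) = 1 / (X i + 3) ∧
    rho (2 * (4 * i + 1)) = X i + 2 ∧
    rho (2 * (4 * i + 1 + 1)) = 1 / (X i + 1) ∧
    rho (2 * (4 * i + 2 + 1)) = (X i + 3) / (X i + 2) ∧
    (rho (2 * (4 * i + 3 + 1)) = X i + 4 ∨ rho (2 * (4 * i + 3 + 1)) = X i + 2) := by
  obtain ⟨f2, f3, f4, f5⟩ := four_step b b_rec i
  have p0 := b4_pos i
  obtain ⟨r1, r2⟩ := X_range i hi
  have hX1 : (b (4 * i + 1) : ℝ) = (X i + 1) * b (4 * i) := by
    unfold X; field_simp; ring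
  have f2' : (b (4 * i + 2) : ℝ) = (X i + 2) * b (4 * i) := by
    have : (b (4 * i + 2) : ℝ) = b (4 * i + 1) + b (4 * i) := by exact_mod_cast f2
    rw [this, hX1]; ring
  have f3' : (b (4 * i + 3) : ℝ) = b (4 * i) := by exact_mod_cast f3
  have f4' : (b (4 * i + 4) : ℝ) = (X i + 3) * b (4 * i) := by
    have : (b (4 * i + 4) : ℝ) = 2 * b (4 * i) + b (4 * i + 1) := by exact_mod_cast f4
    rw [this, hX1]; ring
  have f5' : (b (4 * i + 5) : ℝ) = (X i + 3 + eps (4 * i + 4)) * b (4 * i) := by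
    have : (b (4 * i + 5) : ℝ) = 2 * b (4 * i) + b (4 * i + 1) + eps (4 * i + 4) * b (4 * i) := by
      exact_mod_cast f5
    rw [this, hX1]; ring
  have x1 : X i + 1 ≠ 0 := by linarith
  have x2 : X i + 2 ≠ 0 := by linarith
  have x3 : X i + 3 ≠ 0 := by linarith
  refine ⟨?_, ?_, ?_, ?_, ?_, ?_, ?_, ?_⟩
  · rw [rho_odd, hX1]; field_simp
  · rw [rho_odd, show 4 * i + 1 + 1 = 4 * i + 2 by ring, hX1, f2']; field_simp
  · rw [rho_odd, show 4 * i + 2 + 1 = 4 * i + 3 by ring, f2', f3']; field_simp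
  · rw [rho_odd, show 4 * i + 3 + 1 = 4 * i + 4 by ring, f3', f4']; field_simp
  · rw [rho_even, f2']; field_simp
  · rw [rho_even, show 4 * i + 1 + 2 = 4 * i + 3 by ring, hX1, f3']; field_simp
  · rw [rho_even, show 4 * i + 2 + 2 = 4 * i + 4 by ring, f2', f4']; field_simp
  · rcases eps_cases (4 * i + 4) with he | he
    · left
      rw [rho_even, show 4 * i + 3 + 2 = 4 * i + 5 by ring, f3', f5', he]
      push_cast
      field_simp
      ring
    · right
      rw [rho_even, show 4 * i + 3 + 2 = 4 * i + 5 by ring, f3', f5', he]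
      push_cast
      field_simp
      ring

/-- No rational number is a cluster point of the ratios. -/
theorem rho_far (y : ℚ) : ∃ δ : ℝ, 0 < δ ∧ ∃ N : ℕ, ∀ n, N ≤ n → δ ≤ |rho n - y| := by
  have R : ∀ i, 1 ≤ i → -(1 / 2) ≤ X i ∧ X i ≤ 1 / 2 := X_range
  obtain ⟨d1, h1, N1, g1⟩ := mob_far 0 1 1 1 (by norm_num) 5 (fun i hi => by
    obtain ⟨r1, r2⟩ := R i hi; push_cast; constructor <;> linarith) y
  obtain ⟨d2, h2, N2, g2⟩ := mob_far 1 1 1 2 (by norm_num) 5 (fun i hi => by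
    obtain ⟨r1, r2⟩ := R i hi; push_cast; constructor <;> linarith) y
  obtain ⟨d3, h3, N3, g3⟩ := mob_far 1 2 0 1 (by norm_num) 5 (fun i hi => by
    obtain ⟨r1, r2⟩ := R i hi; push_cast; constructor <;> linarith) y
  obtain ⟨d4, h4, N4, g4⟩ := mob_far 0 1 1 3 (by norm_num) 5 (fun i hi => by
    obtain ⟨r1, r2⟩ := R i hi; push_cast; constructor <;> linarith) y
  obtain ⟨d5, h5, N5, g5⟩ := mob_far 1 3 1 2 (by norm_num) 5 (fun i hi => by
    obtain ⟨r1, r2⟩ := R i hi; push_cast; constructor <;> linarith) y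
  obtain ⟨d6, h6, N6, g6⟩ := mob_far 1 4 0 1 (by norm_num) 5 (fun i hi => by
    obtain ⟨r1, r2⟩ := R i hi; push_cast; constructor <;> linarith) y
  refine ⟨min d1 (min d2 (min d3 (min d4 (min d5 d6)))), by positivity,
    8 * (N1 + N2 + N3 + N4 + N5 + N6 + 1) + 8, fun n hn => ?_⟩
  have m1 : min d1 (min d2 (min d3 (min d4 (min d5 d6)))) ≤ d1 := min_le_left _ _
  have m2 : min d1 (min d2 (min d3 (min d4 (min d5 d6)))) ≤ d2 :=
    (min_le_right _ _).trans (min_le_left _ _)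
  have m3 : min d1 (min d2 (min d3 (min d4 (min d5 d6)))) ≤ d3 :=
    (min_le_right _ _).trans ((min_le_right _ _).trans (min_le_left _ _))
  have m4 : min d1 (min d2 (min d3 (min d4 (min d5 d6)))) ≤ d4 :=
    (min_le_right _ _).trans ((min_le_right _ _).trans ((min_le_right _ _).trans (min_le_left _ _)))
  have m5 : min d1 (min d2 (min d3 (min d4 (min d5 d6)))) ≤ d5 :=
    (min_le_right _ _).trans ((min_le_right _ _).trans ((min_le_right _ _).trans
      ((min_le_right _ _).trans (min_le_left _ _))))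
  have m6 : min d1 (min d2 (min d3 (min d4 (min d5 d6)))) ≤ d6 :=
    (min_le_right _ _).trans ((min_le_right _ _).trans ((min_le_right _ _).trans
      ((min_le_right _ _).trans (min_le_right _ _))))
  obtain ⟨i, hi⟩ : ∃ i, n = 2 * (4 * i) + 1 ∨ n = 2 * (4 * i + 1) + 1 ∨ n = 2 * (4 * i + 2) + 1 ∨
      n = 2 * (4 * i + 3) + 1 ∨ n = 2 * (4 * i + 1) ∨ n = 2 * (4 * i + 1 + 1) ∨
      n = 2 * (4 * i + 2 + 1) ∨ n = 2 * (4 * i + 3 + 1) := ⟨(n - 1) / 8, by omega⟩
  have hi1 : 1 ≤ i := by omega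
  obtain ⟨c1, c2, c3, c4, c5, c6, c7, c8⟩ := rho_forms i hi1
  have G1 := g1 i (by omega)
  have G2 := g2 i (by omega)
  have G3 := g3 i (by omega)
  have G4 := g4 i (by omega)
  have G5 := g5 i (by omega)
  have G6 := g6 i (by omega)
  norm_num at G1 G2 G3 G4 G5 G6
  rcases hi with rfl | rfl | rfl | rfl | rfl | rfl | rfl | rfl
  · rw [c1]; refine m1.trans ?_; simpa using G1
  · rw [c2]; exact m2.trans G2
  · rw [c3]; exact m3.trans G3
  · rw [c4]; refine m4.trans ?_; simpa using G4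
  · rw [c5]; exact m3.trans G3
  · rw [c6]; refine m1.trans ?_; simpa using G1
  · rw [c7]; exact m5.trans G5
  · rcases c8 with c8 | c8
    · rw [c8]; exact m6.trans G6
    · rw [c8]; exact m3.trans G3

theorem rho_nonneg (n : ℕ) : 0 ≤ rho n := by unfold rho; positivity

theorem rho_le (n : ℕ) (hn : 17 ≤ n) : rho n ≤ 5 := by
  obtain ⟨i, hi⟩ : ∃ i, n = 2 * (4 * i) + 1 ∨ n = 2 * (4 * i + 1) + 1 ∨ n = 2 * (4 * i + 2) + 1 ∨
      n = 2 * (4 * i + 3) + 1 ∨ n = 2 * (4 * i + 1) ∨ n = 2 * (4 * i + 1 + 1) ∨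
      n = 2 * (4 * i + 2 + 1) ∨ n = 2 * (4 * i + 3 + 1) := ⟨(n - 1) / 8, by omega⟩
  have hi1 : 1 ≤ i := by omega
  obtain ⟨c1, c2, c3, c4, c5, c6, c7, c8⟩ := rho_forms i hi1
  obtain ⟨r1, r2⟩ := X_range i hi1
  rcases hi with rfl | rfl | rfl | rfl | rfl | rfl | rfl | rfl
  · rw [c1, div_le_iff₀ (by linarith)]; linarith
  · rw [c2, div_le_iff₀ (by linarith)]; linarith
  · rw [c3]; linarith
  · rw [c4, div_le_iff₀ (by linarith)]; linarith
  · rw [c5]; linarith
  · rw [c6, div_le_iff₀ (by linarith)]; linarith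
  · rw [c7, div_le_iff₀ (by linarith)]; linarith
  · rcases c8 with c8 | c8 <;> rw [c8] <;> linarith

open Filter in
/-- Every lower limit is irrational. -/
theorem Climinf_irrational (k i : ℕ) : Irrational (Climinf k i) := by
  rintro ⟨y, hy⟩
  obtain ⟨δ, hδ, N, hN⟩ := rho_far y
  set f : ℕ → ℝ := fun n => rho (2 ^ k * n + i + 1) with hf
  have hge : ∀ n, n ≤ 2 ^ k * n + i + 1 := by
    intro n
    have : 1 * n ≤ 2 ^ k * n := Nat.mul_le_mul_right _ Nat.one_le_two_pow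
    omega
  have hb1 : IsBoundedUnder (· ≥ ·) atTop f := ⟨0, by
    simp only [ge_iff_le, eventually_map]
    exact Eventually.of_forall fun n => rho_nonneg _⟩
  have hb2 : IsBoundedUnder (· ≤ ·) atTop f := ⟨5, by
    simp only [eventually_map]
    filter_upwards [eventually_ge_atTop 17] with n hn
    exact rho_le _ (hn.trans (hge n))⟩
  have hL : Climinf k i = liminf f atTop := rfl
  have h1 : ∀ᶠ n in atTop, (y : ℝ) - δ < f n := by
    apply eventually_lt_of_lt_liminf _ hb1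
    rw [← hL, ← hy]; linarith
  have h2 : ∃ᶠ n in atTop, f n < (y : ℝ) + δ := by
    apply frequently_lt_of_liminf_lt hb2.isCoboundedUnder_ge
    rw [← hL, ← hy]; linarith
  obtain ⟨n, hn1, hn2, hn3⟩ := (h2.and_eventually (h1.and (eventually_ge_atTop N))).exists
  have h3 := hN (2 ^ k * n + i + 1) (hn3.trans (hge n))
  have h4 : |f n - y| < δ := by
    rw [abs_lt]; constructor <;> linarith
  exact absurd h3 (not_le.2 h4)

end Pool.Agent.Helper27_TM
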