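import Pool.Agent.Helper27_TM.Attained

set_option autoImplicit false

namespace Pool.Agent.Helper27_TM

theorem b_big : b 16 = 64 ∧ b 17 = 83 ∧ b 64 = 52071130 ∧ b 65 = 67519091 := by
  have c0 : b 0 = 1 := rfl
  have c1 : b 1 = 0 := rfl
  have e1 : eps 1 = 1 := eps_odd 0
  have e2 : eps 2 = -1 := by
    rw [show 2 = 2 * 1 by norm_num, eps_even 1 (by norm_num), e1]
  have e3 : eps 3 = 1 := eps_odd 1
  have e4 : eps 4 = 1 := by
    rw [show 4 = 2 * 2 by norm_num, eps_even 2 (by norm_num), e2]; norm_num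
  have e5 : eps 5 = 1 := eps_odd 2
  have e6 : eps 6 = -1 := by
    rw [show 6 = 2 * 3 by norm_num, eps_even 3 (by norm_num), e3]
  have e7 : eps 7 = 1 := eps_odd 3
  have e8 : eps 8 = -1 := by
    rw [show 8 = 2 * 4 by norm_num, eps_even 4 (by norm_num), e4]
  have e9 : eps 9 = 1 := eps_odd 4
  have e10 : eps 10 = -1 := by
    rw [show 10 = 2 * 5 by norm_num, eps_even 5 (by norm_num), e5]
  have e11 : eps 11 = 1 := eps_odd 5
  have e12 : eps 12 = 1 := by
    rw [show 12 = 2 * 6 by norm_num, eps_even 6 (by norm_num), e6]; norm_num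
  have e13 : eps 13 = 1 := eps_odd 6
  have e14 : eps 14 = -1 := by
    rw [show 14 = 2 * 7 by norm_num, eps_even 7 (by norm_num), e7]
  have e15 : eps 15 = 1 := eps_odd 7
  have e16 : eps 16 = 1 := by
    rw [show 16 = 2 * 8 by norm_num, eps_even 8 (by norm_num), e8]; norm_num
  have f4 : eps 4 = 1 := by
    rw [show 4 = 2 * (2 * 1) by norm_num, eps_even _ (by norm_num), eps_even _ (by norm_num), e1]; norm_num
  obtain ⟨-, -, g4, g5⟩ := four_step b b_rec 0
  norm_num [f4, c0, c1] at g4 g5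
  have c4 : b 4 = 2 := g4
  have c5 : b 5 = 3 := g5
  have f8 : eps 8 = -1 := by
    rw [show 8 = 2 * (2 * 2) by norm_num, eps_even _ (by norm_num), eps_even _ (by norm_num), e2]; norm_num
  obtain ⟨-, -, g4, g5⟩ := four_step b b_rec 1
  norm_num [f8, c4, c5] at g4 g5
  have c8 : b 8 = 7 := g4
  have c9 : b 9 = 5 := g5
  have f12 : eps 12 = 1 := by
    rw [show 12 = 2 * (2 * 3) by norm_num, eps_even _ (by norm_num), eps_even _ (by norm_num), e3]; norm_num
  obtain ⟨-, -, g4, g5⟩ := four_step b b_rec 2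
  norm_num [f12, c8, c9] at g4 g5
  have c12 : b 12 = 19 := g4
  have c13 : b 13 = 26 := g5
  have f16 : eps 16 = 1 := by
    rw [show 16 = 2 * (2 * 4) by norm_num, eps_even _ (by norm_num), eps_even _ (by norm_num), e4]; norm_num
  obtain ⟨-, -, g4, g5⟩ := four_step b b_rec 3
  norm_num [f16, c12, c13] at g4 g5
  have c16 : b 16 = 64 := g4
  have c17 : b 17 = 83 := g5
  have f20 : eps 20 = 1 := by
    rw [show 20 = 2 * (2 * 5) by norm_num, eps_even _ (by norm_num), eps_even _ (by norm_num), e5]; norm_num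
  obtain ⟨-, -, g4, g5⟩ := four_step b b_rec 4
  norm_num [f20, c16, c17] at g4 g5
  have c20 : b 20 = 211 := g4
  have c21 : b 21 = 275 := g5
  have f24 : eps 24 = -1 := by
    rw [show 24 = 2 * (2 * 6) by norm_num, eps_even _ (by norm_num), eps_even _ (by norm_num), e6]; norm_num
  obtain ⟨-, -, g4, g5⟩ := four_step b b_rec 5
  norm_num [f24, c20, c21] at g4 g5
  have c24 : b 24 = 697 := g4
  have c25 : b 25 = 486 := g5
  have f28 : eps 28 = 1 := by
    rw [show 28 = 2 * (2 * 7) by norm_num, eps_even _ (by norm_num), eps_even _ (by norm_num), e7]; norm_num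
  obtain ⟨-, -, g4, g5⟩ := four_step b b_rec 6
  norm_num [f28, c24, c25] at g4 g5
  have c28 : b 28 = 1880 := g4
  have c29 : b 29 = 2577 := g5
  have f32 : eps 32 = -1 := by
    rw [show 32 = 2 * (2 * 8) by norm_num, eps_even _ (by norm_num), eps_even _ (by norm_num), e8]; norm_num
  obtain ⟨-, -, g4, g5⟩ := four_step b b_rec 7
  norm_num [f32, c28, c29] at g4 g5
  have c32 : b 32 = 6337 := g4
  have c33 : b 33 = 4457 := g5
  have f36 : eps 36 = 1 := by
    rw [show 36 = 2 * (2 * 9) by norm_num, eps_even _ (by norm_num), eps_even _ (by norm_num), e9]; norm_num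
  obtain ⟨-, -, g4, g5⟩ := four_step b b_rec 8
  norm_num [f36, c32, c33] at g4 g5
  have c36 : b 36 = 17131 := g4
  have c37 : b 37 = 23468 := g5
  have f40 : eps 40 = -1 := by
    rw [show 40 = 2 * (2 * 10) by norm_num, eps_even _ (by norm_num), eps_even _ (by norm_num), e10]; norm_num
  obtain ⟨-, -, g4, g5⟩ := four_step b b_rec 9
  norm_num [f40, c36, c37] at g4 g5
  have c40 : b 40 = 57730 := g4
  have c41 : b 41 = 40599 := g5
  have f44 : eps 44 = 1 := by
    rw [show 44 = 2 * (2 * 11) by norm_num, eps_even _ (by norm_num), eps_even _ (by norm_num), e11]; norm_num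
  obtain ⟨-, -, g4, g5⟩ := four_step b b_rec 10
  norm_num [f44, c40, c41] at g4 g5
  have c44 : b 44 = 156059 := g4
  have c45 : b 45 = 213789 := g5
  have f48 : eps 48 = 1 := by
    rw [show 48 = 2 * (2 * 12) by norm_num, eps_even _ (by norm_num), eps_even _ (by norm_num), e12]; norm_num
  obtain ⟨-, -, g4, g5⟩ := four_step b b_rec 11
  norm_num [f48, c44, c45] at g4 g5
  have c48 : b 48 = 525907 := g4
  have c49 : b 49 = 681966 := g5
  have f52 : eps 52 = 1 := by
    rw [show 52 = 2 * (2 * 13) by norm_num, eps_even _ (by norm_num), eps_even _ (by norm_num), e13]; norm_num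
  obtain ⟨-, -, g4, g5⟩ := four_step b b_rec 12
  norm_num [f52, c48, c49] at g4 g5
  have c52 : b 52 = 1733780 := g4
  have c53 : b 53 = 2259687 := g5
  have f56 : eps 56 = -1 := by
    rw [show 56 = 2 * (2 * 14) by norm_num, eps_even _ (by norm_num), eps_even _ (by norm_num), e14]; norm_num
  obtain ⟨-, -, g4, g5⟩ := four_step b b_rec 13
  norm_num [f56, c52, c53] at g4 g5
  have c56 : b 56 = 5727247 := g4
  have c57 : b 57 = 3993467 := g5
  have f60 : eps 60 = 1 := by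
    rw [show 60 = 2 * (2 * 15) by norm_num, eps_even _ (by norm_num), eps_even _ (by norm_num), e15]; norm_num
  obtain ⟨-, -, g4, g5⟩ := four_step b b_rec 14
  norm_num [f60, c56, c57] at g4 g5
  have c60 : b 60 = 15447961 := g4
  have c61 : b 61 = 21175208 := g5
  have f64 : eps 64 = 1 := by
    rw [show 64 = 2 * (2 * 16) by norm_num, eps_even _ (by norm_num), eps_even _ (by norm_num), e16]; norm_num
  obtain ⟨-, -, g4, g5⟩ := four_step b b_rec 15
  norm_num [f64, c60, c61] at g4 g5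
  have c64 : b 64 = 52071130 := g4
  have c65 : b 65 = 67519091 := g5
  exact ⟨c16, c17, c64, c65⟩

theorem C_isLeast (k i : ℕ) (hk : 1 ≤ k) (hi : i < 2 ^ k) :
    IsLeast {x : ℝ | ∃ n : ℕ, 4 ≤ 2 ^ k * n + i ∧ x = rho (2 ^ k * n + i + 1)} (C k i) := by
  obtain ⟨n0, h0, h1⟩ := attained k i hk hi
  have h : IsLeast {x : ℝ | ∃ n : ℕ, 4 ≤ 2 ^ k * n + i ∧ x = rho (2 ^ k * n + i + 1)}
      (rho (2 ^ k * n0 + i + 1)) := by
    refine ⟨⟨n0, h0, rfl⟩, ?_⟩
    rintro x ⟨n, hn, rfl⟩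
    exact h1 n hn
  have h2 : C k i = rho (2 ^ k * n0 + i + 1) := h.csInf_eq
  rw [h2]
  exact h

theorem C_eq (k i n0 : ℕ) (h0 : 4 ≤ 2 ^ k * n0 + i)
    (h1 : ∀ n, 4 ≤ 2 ^ k * n + i → rho (2 ^ k * n0 + i + 1) ≤ rho (2 ^ k * n + i + 1)) :
    C k i = rho (2 ^ k * n0 + i + 1) := by
  have h : IsLeast {x : ℝ | ∃ n : ℕ, 4 ≤ 2 ^ k * n + i ∧ x = rho (2 ^ k * n + i + 1)}
      (rho (2 ^ k * n0 + i + 1)) := by
    refine ⟨⟨n0, h0, rfl⟩, ?_⟩
    rintro x ⟨n, hn, rfl⟩
    exact h1 n hn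
  exact h.csInf_eq

theorem C_even (k : ℕ) (hk : 1 ≤ k) : C (2 * k) 0 = rho (2 ^ (2 * k + 1) + 1) := by
  obtain ⟨j, hj⟩ : ∃ j, 2 * k = j + 1 := ⟨2 * k - 1, by omega⟩
  have ho : ¬ Even j := by
    rw [Nat.not_even_iff_odd]; exact ⟨k - 1, by omega⟩
  have hmx : nmax j = 2 := by unfold nmax; rw [if_neg ho]
  have h4 : 4 ≤ 2 ^ (2 * k) := by
    calc 4 = 2 ^ 2 := by norm_num
      _ ≤ 2 ^ (2 * k) := Nat.pow_le_pow_right (by norm_num) (by omega)
  have := C_eq (2 * k) 0 2 (by omega) (fun n hn => by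
    have h := first_min j (by omega) n (by rw [← hj]; omega)
    rw [hmx, ← hj] at h
    simpa using h)
  rw [this]
  congr 1

theorem C_odd (k : ℕ) (hk : 1 ≤ k) : C (2 * k + 1) 0 = rho (2 ^ (2 * k + 1) + 1) := by
  have hmx : nmax (2 * k) = 1 := by unfold nmax; rw [if_pos (even_two_mul k)]
  have h4 : 4 ≤ 2 ^ (2 * k + 1) := by
    calc 4 = 2 ^ 2 := by norm_num
      _ ≤ 2 ^ (2 * k + 1) := Nat.pow_le_pow_right (by norm_num) (by omega)
  have := C_eq (2 * k + 1) 0 1 (by omega) (fun n hn => by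
    have h := first_min (2 * k) (by omega) n (by omega)
    rw [hmx] at h
    simpa using h)
  rw [this]
  congr 1
  ring

theorem C_one_zero : C 1 0 = 2 / 7 := by
  obtain ⟨b2, b3, b4, b5, b6, b7, b8⟩ := b_vals
  have := C_eq 1 0 7 (by norm_num) (fun n hn => by
    rw [show 2 ^ 1 * 7 + 0 + 1 = 2 * 7 + 1 by norm_num,
      show 2 ^ 1 * n + 0 + 1 = 2 * n + 1 by ring, rho_odd, rho_odd, b7, b8]
    have h1 := step_up n (by norm_num at hn; omega)
    have h2 : (0 : ℝ) < b (n + 1) := by exact_mod_cast b_pos _ (by norm_num at hn; omega)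
    have h1' : (2 : ℝ) * b (n + 1) ≤ 7 * b n := by exact_mod_cast h1
    push_cast
    rw [div_le_div_iff₀ (by norm_num) h2]
    linarith)
  rw [this, show 2 ^ 1 * 7 + 0 + 1 = 2 * 7 + 1 by norm_num, rho_odd, b7, b8]
  norm_num

theorem C_two_zero : C 2 0 = 2 / 3 := by
  obtain ⟨b2, b3, b4, b5, b6, b7, b8⟩ := b_vals
  have h := C_even 1 le_rfl
  rw [show 2 ^ (2 * 1 + 1) + 1 = 2 * 4 + 1 by norm_num, rho_odd, b4, b5] at h
  norm_num at h
  exact h

theorem C_four_zero : C 4 0 = 64 / 83 := by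
  obtain ⟨c1, c2, c3, c4⟩ := b_big
  have h := C_even 2 (by norm_num)
  rw [show 2 ^ (2 * 2 + 1) + 1 = 2 * 16 + 1 by norm_num, rho_odd, c1, c2] at h
  norm_num at h
  exact h

theorem C_six_zero : C 6 0 = 52071130 / 67519091 := by
  obtain ⟨c1, c2, c3, c4⟩ := b_big
  have h := C_even 3 (by norm_num)
  rw [show 2 ^ (2 * 3 + 1) + 1 = 2 * 64 + 1 by norm_num, rho_odd, c3, c4] at h
  norm_num at h
  exact h

theorem rho_rat (n : ℕ) : ∃ q : ℚ, rho n = q := by
  refine ⟨|(h n : ℚ)| / |(h (n - 1) : ℚ)|, ?_⟩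
  unfold rho
  push_cast
  rfl

theorem h_ne_zero (n : ℕ) (hn : 4 ≤ n) : h n ≠ 0 := by
  rcases Nat.even_or_odd' n with ⟨m, rfl | rfl⟩
  · rw [h_even_b]
    have := b_pos (m + 1) (by omega)
    omega
  · intro h0
    have h1 := abs_h_odd m
    rw [h0, abs_zero] at h1
    have := b_pos m (by omega)
    rw [abs_of_pos this] at h1
    omega

end Pool.Agent.Helper27_TM
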